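import Mathlib
import Pool.Agent.H296R2.LE.Basic

open Complex Filter Topology Set Metric

namespace Pool.Agent.H296R2.LE

/-- open half-strip -/
def U (l u : ℝ) : Set ℂ := {s | l < s.re ∧ s.re < u ∧ 0 < s.im}

theorem isOpen_U (l u : ℝ) : IsOpen (U l u) := by
  have e : U l u = {s : ℂ | l < s.re} ∩ ({s : ℂ | s.re < u} ∩ {s : ℂ | 0 < s.im}) := rfl
  rw [e]
  exact (isOpen_lt continuous_const Complex.continuous_re).inter
    ((isOpen_lt Complex.continuous_re continuous_const).inter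
      (isOpen_lt continuous_const Complex.continuous_im))

/-- `F` is regular in the half-strip: it behaves like `χ(s)` -/
def Rg (l u : ℝ) (F : ℂ → ℂ) : Prop :=
  ∀ l' u' : ℝ, l < l' → u' < u → ∀ ε : ℝ, 0 < ε → ∃ T : ℝ, ∀ s : ℂ, l' ≤ s.re → s.re ≤ u' →
    T ≤ s.im → F s ≠ 0 ∧ ‖deriv F s / F s + (Real.log s.im : ℂ)‖ ≤ ε * Real.log s.im ∧
    s.im ^ (1 / 2 - s.re - ε) ≤ ‖F s‖ ∧ ‖F s‖ ≤ s.im ^ (1 / 2 - s.re + ε)

theorem large_log (C : ℝ) {ε : ℝ} (hε : 0 < ε) : ∃ T : ℝ, ∀ t : ℝ, T ≤ t → C ≤ ε * Real.log t := by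
  have h : Tendsto (fun t : ℝ => ε * Real.log t) atTop atTop :=
    Real.tendsto_log_atTop.const_mul_atTop hε
  exact eventually_atTop.1 (h.eventually_ge_atTop C)

theorem large_rpow (C : ℝ) {δ : ℝ} (hδ : 0 < δ) : ∃ T : ℝ, ∀ t : ℝ, T ≤ t → C ≤ t ^ δ :=
  eventually_atTop.1 ((tendsto_rpow_atTop hδ).eventually_ge_atTop C)

theorem large_log_rpow {C : ℝ} (hC : 0 < C) {δ : ℝ} (hδ : 0 < δ) :
    ∃ T : ℝ, ∀ t : ℝ, T ≤ t → C * (1 + Real.log t) ≤ t ^ δ := by
  have h := (isLittleO_log_rpow_atTop hδ).bound (c := 1 / (2 * C)) (by positivity)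
  obtain ⟨T1, h1⟩ := eventually_atTop.1 h
  obtain ⟨T2, h2⟩ := large_rpow (2 * C) hδ
  refine ⟨max 1 (max T1 T2), fun t ht => ?_⟩
  have ht1 : 1 ≤ t := (le_max_left _ _).trans ht
  have h3 := h1 t (((le_max_left _ _).trans (le_max_right _ _)).trans ht)
  have h4 := h2 t (((le_max_right _ _).trans (le_max_right _ _)).trans ht)
  rw [Real.norm_of_nonneg (Real.log_nonneg ht1), Real.norm_of_nonneg (by positivity)] at h3
  have h5 : C * Real.log t ≤ t ^ δ / 2 := by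
    calc C * Real.log t ≤ C * (1 / (2 * C) * t ^ δ) := by gcongr
      _ = t ^ δ / 2 := by field_simp
  linarith

theorem log_near {t y : ℝ} (ht : 2 ≤ t) (hy : |y - t| ≤ 1) : |Real.log y - Real.log t| ≤ 1 := by
  rw [abs_le] at hy
  have hy0 : 0 < y := by linarith [hy.1]
  have ht0 : 0 < t := by linarith
  rw [← Real.log_div hy0.ne' ht0.ne', abs_le]
  have hq : 0 < y / t := div_pos hy0 ht0
  constructor
  · have h1 := Real.one_sub_inv_le_log_of_pos hq
    have h2 : (y / t)⁻¹ ≤ 2 := by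
      rw [inv_div, div_le_iff₀ hy0]
      linarith [hy.1]
    linarith
  · have h1 := Real.log_le_sub_one_of_pos hq
    have h2 : y / t ≤ 2 := by
      rw [div_le_iff₀ ht0]
      linarith [hy.2]
    linarith

theorem exists_radius {l u l' u' : ℝ} (hl : l < l') (hu : u' < u) :
    ∃ r : ℝ, 0 < r ∧ r ≤ 1 ∧ l < l' - r ∧ u' + r < u := by
  refine ⟨min 1 (min ((l' - l) / 2) ((u - u') / 2)), ?_, min_le_left _ _, ?_, ?_⟩
  · refine lt_min one_pos (lt_min ?_ ?_) <;> linarith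
  · have : min 1 (min ((l' - l) / 2) ((u - u') / 2)) ≤ (l' - l) / 2 :=
      (min_le_right _ _).trans (min_le_left _ _)
    linarith
  · have : min 1 (min ((l' - l) / 2) ((u - u') / 2)) ≤ (u - u') / 2 :=
      (min_le_right _ _).trans (min_le_right _ _)
    linarith

theorem ball_re {s z : ℂ} {r : ℝ} (h : z ∈ closedBall s r) : |z.re - s.re| ≤ r := by
  rw [mem_closedBall, dist_eq_norm] at h
  exact (by simpa using Complex.abs_re_le_norm (z - s) : |z.re - s.re| ≤ ‖z - s‖).trans h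

theorem ball_im {s z : ℂ} {r : ℝ} (h : z ∈ closedBall s r) : |z.im - s.im| ≤ r := by
  rw [mem_closedBall, dist_eq_norm] at h
  exact (by simpa using Complex.abs_im_le_norm (z - s) : |z.im - s.im| ≤ ‖z - s‖).trans h

/-- the logarithmic derivative near a point of a regular region -/
theorem near_bound {L ε1 y t : ℝ} {v : ℂ} (hL : L = Real.log t) (ht : 2 ≤ t) (hy : |y - t| ≤ 1)
    (h1 : 1 ≤ L) (h2 : 1 ≤ ε1 * L) (hε1 : 0 < ε1) (hv : ‖v + (Real.log y : ℂ)‖ ≤ ε1 * Real.log y) :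
    ‖v + (L : ℂ)‖ ≤ 3 * ε1 * L := by
  have h3 := log_near ht hy
  rw [← hL] at h3
  have e : v + (L : ℂ) = (v + (Real.log y : ℂ)) + ((L - Real.log y : ℝ) : ℂ) := by push_cast; ring
  rw [e]
  refine (norm_add_le _ _).trans ?_
  rw [Complex.norm_real, Real.norm_eq_abs, abs_sub_comm]
  have h4 := (abs_le.1 h3).2
  have h5 : ε1 * Real.log y ≤ ε1 * (L + 1) := by gcongr; linarith
  nlinarith

theorem Rg.down {l u : ℝ} {G : ℂ → ℂ} (lam : ℂ) (hG : DifferentiableOn ℂ G (U l u))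
    (h : Rg l u G) : Rg l u (fun s => deriv G s - lam * G s) := by
  intro l' u' hl hu ε hε
  obtain ⟨r, hr0, hr1, hrl, hru⟩ := exists_radius hl hu
  set ε1 := min (ε / 2) (1 / 24) with hε1
  have hε10 : 0 < ε1 := lt_min (by linarith) (by norm_num)
  have hε12 : ε1 ≤ ε / 2 := min_le_left _ _
  have hε13 : ε1 ≤ 1 / 24 := min_le_right _ _
  obtain ⟨T1, hT1⟩ := h (l' - r) (u' + r) hrl hru ε1 hε10
  obtain ⟨T2, hT2⟩ := large_log 1 hε10
  obtain ⟨T3, hT3⟩ := large_log (4 * ‖lam‖ + 4) one_pos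
  obtain ⟨T4, hT4⟩ := large_log (12 * ε1 / r) (show (0 : ℝ) < ε / 2 by linarith)
  obtain ⟨T5, hT5⟩ := large_log_rpow (show (0 : ℝ) < 2 by norm_num) (show (0 : ℝ) < ε / 2 by linarith)
  refine ⟨max 3 (max (T1 + 1) (max T2 (max T3 (max T4 T5)))), ?_⟩
  intro s hs1 hs2 hs3
  simp only [max_le_iff] at hs3
  obtain ⟨a1, a2, a3, a4, a5, a6⟩ := hs3
  set L := Real.log s.im with hL
  have b2 := hT2 _ a3
  have b3 := hT3 _ a4
  have b4 := hT4 _ a5
  have b5 := hT5 _ a6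
  rw [← hL] at b2 b3 b4 b5
  have hlam : 0 ≤ ‖lam‖ := norm_nonneg _
  have hL1 : 4 ≤ L := by linarith
  have hL0 : 0 < L := by linarith
  have hreg : ∀ z ∈ closedBall s r, z ∈ U l u ∧ G z ≠ 0 ∧
      ‖deriv G z / G z + (L : ℂ)‖ ≤ 3 * ε1 * L := by
    intro z hz
    have c1 := abs_le.1 (ball_re hz)
    have c2 := ball_im hz
    have c3 := abs_le.1 c2
    have c4 := hT1 z (by linarith) (by linarith) (by linarith)
    refine ⟨⟨by linarith, by linarith, by linarith⟩, c4.1, ?_⟩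
    exact near_bound hL (by linarith) (c2.trans hr1) (by linarith) b2 hε10 c4.2.1
  have hsb : s ∈ closedBall s r := mem_closedBall_self hr0.le
  obtain ⟨hsU, hGs, hGs2⟩ := hreg s hsb
  have hG1 : DifferentiableOn ℂ (deriv G) (U l u) := hG.deriv (isOpen_U l u)
  have hdG : ∀ z ∈ U l u, DifferentiableAt ℂ G z := fun z hz =>
    (hG z hz).differentiableAt ((isOpen_U l u).mem_nhds hz)
  have hdG1 : ∀ z ∈ U l u, DifferentiableAt ℂ (deriv G) z := fun z hz =>
    (hG1 z hz).differentiableAt ((isOpen_U l u).mem_nhds hz)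
  have hH : ‖deriv (fun z => deriv G z / G z + (L : ℂ)) s‖ ≤ 3 * ε1 * L / r := by
    apply Complex.norm_deriv_le_of_forall_mem_sphere_norm_le hr0
    · apply DifferentiableOn.diffContOnCl
      rw [closure_ball s hr0.ne']
      intro z hz
      obtain ⟨d1, d2, _⟩ := hreg z hz
      exact (((hdG1 z d1).div (hdG z d1) d2).add_const _).differentiableWithinAt
    · intro z hz
      exact (hreg z (sphere_subset_closedBall hz)).2.2
  have hHd : deriv (fun z => deriv G z / G z + (L : ℂ)) s =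
      (deriv (deriv G) s * G s - deriv G s * deriv G s) / G s ^ 2 := by
    have := (((hdG1 s hsU).hasDerivAt.div (hdG s hsU).hasDerivAt hGs).add_const (L : ℂ))
    exact this.deriv
  rw [hHd] at hH
  set W := (deriv (deriv G) s * G s - deriv G s * deriv G s) / G s ^ 2 with hW
  set V := deriv G s / G s - lam with hV
  have hVe : V = (deriv G s / G s + (L : ℂ)) - ((L : ℂ) + lam) := by rw [hV]; ring
  have hLn : ‖(L : ℂ)‖ = L := by rw [Complex.norm_real, Real.norm_of_nonneg hL0.le]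
  have hVlow : L / 2 ≤ ‖V‖ := by
    have e1 : ‖(L : ℂ)‖ ≤ ‖V‖ + ‖deriv G s / G s + (L : ℂ)‖ + ‖lam‖ := by
      have : (L : ℂ) = -V + (deriv G s / G s + (L : ℂ)) - lam := by rw [hVe]; ring
      calc ‖(L : ℂ)‖ = ‖-V + (deriv G s / G s + (L : ℂ)) - lam‖ := by rw [← this]
        _ ≤ _ := (norm_sub_le _ _).trans (add_le_add ((norm_add_le _ _).trans (by rw [norm_neg])) le_rfl)
    rw [hLn] at e1
    nlinarith
  have hVup : ‖V‖ ≤ 2 * L := by
    have e1 : ‖V‖ ≤ ‖deriv G s / G s + (L : ℂ)‖ + (‖(L : ℂ)‖ + ‖lam‖) := by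
      rw [hVe]
      exact (norm_sub_le _ _).trans (add_le_add le_rfl (norm_add_le _ _))
    rw [hLn] at e1
    nlinarith
  have hVpos : 0 < ‖V‖ := by linarith
  have hV0 : V ≠ 0 := norm_pos_iff.1 hVpos
  have hFe : deriv G s - lam * G s = G s * V := by
    rw [hV]; field_simp
  have hF0 : deriv G s - lam * G s ≠ 0 := by rw [hFe]; exact mul_ne_zero hGs hV0
  have hFd : deriv (fun s => deriv G s - lam * G s) s = deriv (deriv G) s - lam * deriv G s :=
    ((hdG1 s hsU).hasDerivAt.sub ((hdG s hsU).hasDerivAt.const_mul lam)).deriv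
  refine ⟨hF0, ?_, ?_, ?_⟩
  · rw [hFd]
    have e : (deriv (deriv G) s - lam * deriv G s) / (deriv G s - lam * G s) + (L : ℂ) =
        (deriv G s / G s + (L : ℂ)) + W / V := by
      rw [hW, hV]
      have h5 : deriv G s / G s - lam = (deriv G s - lam * G s) / G s := by field_simp
      rw [h5]
      field_simp
      ring
    rw [e]
    refine (norm_add_le _ _).trans ?_
    have h6 : ‖W / V‖ ≤ 6 * ε1 / r := by
      rw [norm_div, div_le_iff₀ hVpos]
      refine hH.trans ?_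
      calc 3 * ε1 * L / r = 6 * ε1 / r * (L / 2) := by ring
        _ ≤ 6 * ε1 / r * ‖V‖ := by gcongr
    have h7 : ‖deriv G s / G s + (L : ℂ)‖ ≤ ε1 * L := (hT1 s (by linarith) (by linarith) (by linarith)).2.1
    have h8 : 12 * ε1 / r = 2 * (6 * ε1 / r) := by ring
    have h9 : 0 ≤ 6 * ε1 / r := by positivity
    nlinarith
  · have h7 := (hT1 s (by linarith) (by linarith) (by linarith)).2.2.1
    show s.im ^ (1 / 2 - s.re - ε) ≤ ‖deriv G s - lam * G s‖
    rw [hFe, norm_mul]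
    have h8 : s.im ^ (1 / 2 - s.re - ε) ≤ s.im ^ (1 / 2 - s.re - ε1) :=
      Real.rpow_le_rpow_of_exponent_le (by linarith) (by linarith)
    have h9 : (1 : ℝ) ≤ ‖V‖ := by linarith
    have h10 : 0 ≤ ‖G s‖ := norm_nonneg _
    nlinarith
  · have h7 := (hT1 s (by linarith) (by linarith) (by linarith)).2.2.2
    show ‖deriv G s - lam * G s‖ ≤ s.im ^ (1 / 2 - s.re + ε)
    rw [hFe, norm_mul]
    have him : 0 < s.im := by linarith
    have h9 : ‖V‖ ≤ s.im ^ (ε / 2) := by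
      refine hVup.trans (le_trans ?_ b5)
      linarith
    calc ‖G s‖ * ‖V‖ ≤ s.im ^ (1 / 2 - s.re + ε1) * s.im ^ (ε / 2) := by gcongr
      _ = s.im ^ (1 / 2 - s.re + ε1 + ε / 2) := by rw [← Real.rpow_add him]
      _ ≤ s.im ^ (1 / 2 - s.re + ε) :=
        Real.rpow_le_rpow_of_exponent_le (by linarith) (by linarith)

theorem Rg.smul {l u : ℝ} {G : ℂ → ℂ} {c : ℂ} (hc : c ≠ 0) (h : Rg l u G) :
    Rg l u (fun s => c * G s) := by
  intro l' u' hl hu ε hε
  obtain ⟨T1, hT1⟩ := h l' u' hl hu (ε / 2) (by linarith)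
  obtain ⟨T2, hT2⟩ := large_rpow (‖c‖ + 1 / ‖c‖) (show (0 : ℝ) < ε / 2 by linarith)
  have hc0 : 0 < ‖c‖ := norm_pos_iff.2 hc
  refine ⟨max 1 (max T1 T2), fun s hs1 hs2 hs3 => ?_⟩
  simp only [max_le_iff] at hs3
  obtain ⟨a1, a2, a3⟩ := hs3
  obtain ⟨c1, c2, c3, c4⟩ := hT1 s hs1 hs2 a2
  have b2 := hT2 _ a3
  have hp : 0 < 1 / ‖c‖ := by positivity
  have him : 0 < s.im := by linarith
  refine ⟨mul_ne_zero hc c1, ?_, ?_, ?_⟩
  · rw [deriv_const_mul_field, mul_div_mul_left _ _ hc]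
    have : 0 ≤ Real.log s.im := Real.log_nonneg a1
    nlinarith
  · rw [norm_mul]
    have e : s.im ^ (1 / 2 - s.re - ε / 2) = s.im ^ (1 / 2 - s.re - ε) * s.im ^ (ε / 2) := by
      rw [← Real.rpow_add him]; congr 1; ring
    rw [e] at c3
    have h1 : 1 / ‖c‖ ≤ s.im ^ (ε / 2) := by linarith
    have h2 : s.im ^ (1 / 2 - s.re - ε) * (1 / ‖c‖) ≤ ‖G s‖ := le_trans (by gcongr) c3
    calc s.im ^ (1 / 2 - s.re - ε) = ‖c‖ * (s.im ^ (1 / 2 - s.re - ε) * (1 / ‖c‖)) := by field_simp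
      _ ≤ ‖c‖ * ‖G s‖ := by gcongr
  · rw [norm_mul]
    have e : s.im ^ (1 / 2 - s.re + ε) = s.im ^ (ε / 2) * s.im ^ (1 / 2 - s.re + ε / 2) := by
      rw [← Real.rpow_add him]; congr 1; ring
    rw [e]
    have h1 : ‖c‖ ≤ s.im ^ (ε / 2) := by linarith
    gcongr

theorem Rg.sub {l u : ℝ} {G g : ℂ → ℂ} (hG : DifferentiableOn ℂ G (U l u))
    (hg : DifferentiableOn ℂ g (U l u)) (h : Rg l u G)
    (hgr : ∀ l' u' : ℝ, l < l' → u' < u → ∃ κ : ℝ, 0 ≤ κ ∧ κ < 1 / 2 - u' ∧ ∃ C : ℝ, 0 ≤ C ∧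
      ∀ s : ℂ, l' ≤ s.re → s.re ≤ u' → 1 ≤ s.im → ‖g s‖ ≤ C * s.im ^ κ) :
    Rg l u (fun s => G s - g s) := by
  intro l' u' hl hu ε hε
  obtain ⟨r, hr0, hr1, hrl, hru⟩ := exists_radius hl hu
  obtain ⟨κ, hκ0, hκ1, C, hC, hgb⟩ := hgr (l' - r) (u' + r) hrl hru
  set δ := (1 / 2 - u' - κ) / 2 with hδ
  have hδ0 : 0 < δ := by rw [hδ]; linarith
  set ε1 := min (ε / 4) δ with hε1
  have hε10 : 0 < ε1 := lt_min (by linarith) hδ0
  have hε12 : ε1 ≤ ε / 4 := min_le_left _ _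
  have hε13 : ε1 ≤ δ := min_le_right _ _
  set η := min (1 / 2) (ε / 4) with hη
  have hη0 : 0 < η := lt_min (by norm_num) (by linarith)
  have hη1 : η ≤ 1 / 2 := min_le_left _ _
  have hη2 : η ≤ ε / 4 := min_le_right _ _
  set C' := C + C * 2 ^ κ / r + 1 with hC'
  have h2κ : 0 ≤ C * 2 ^ κ / r := by positivity
  have hC'0 : 0 < C' := by rw [hC']; linarith
  obtain ⟨T1, hT1⟩ := h l' u' hl hu ε1 hε10
  obtain ⟨T2, hT2⟩ := large_log_rpow (show (0 : ℝ) < C' / η by positivity) hδ0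
  obtain ⟨T3, hT3⟩ := large_log 1 (one_pos)
  obtain ⟨T4, hT4⟩ := large_rpow 2 (show (0 : ℝ) < ε / 2 by linarith)
  refine ⟨max 3 (max T1 (max T2 (max T3 T4))), ?_⟩
  intro s hs1 hs2 hs3
  simp only [max_le_iff] at hs3
  obtain ⟨a1, a2, a3, a4, a5⟩ := hs3
  set L := Real.log s.im with hL
  have b2 := hT2 _ a3
  have b3 := hT3 _ a4
  have b4 := hT4 _ a5
  rw [← hL] at b2 b3
  rw [one_mul] at b3
  have hL0 : 0 < L := by linarith
  have him : 0 < s.im := by linarith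
  obtain ⟨c1, c2, c3, c4⟩ := hT1 s hs1 hs2 a2
  have hdG : ∀ z ∈ U l u, DifferentiableAt ℂ G z := fun z hz =>
    (hG z hz).differentiableAt ((isOpen_U l u).mem_nhds hz)
  have hdg : ∀ z ∈ U l u, DifferentiableAt ℂ g z := fun z hz =>
    (hg z hz).differentiableAt ((isOpen_U l u).mem_nhds hz)
  have hsU : s ∈ U l u := ⟨by linarith, by linarith, him⟩
  have hreg : ∀ z ∈ closedBall s r, z ∈ U l u ∧ ‖g z‖ ≤ C * 2 ^ κ * s.im ^ κ := by
    intro z hz
    have d1 := abs_le.1 (ball_re hz)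
    have d3 := abs_le.1 (ball_im hz)
    refine ⟨⟨by linarith, by linarith, by linarith⟩, ?_⟩
    refine (hgb z (by linarith) (by linarith) (by linarith)).trans ?_
    rw [mul_assoc, ← Real.mul_rpow (by norm_num) him.le]
    gcongr
    · linarith
    · linarith
  have hg1 : ‖g s‖ ≤ C' * s.im ^ κ := by
    refine (hgb s (by linarith) (by linarith) (by linarith)).trans ?_
    gcongr
    rw [hC']; linarith
  have hg2 : ‖deriv g s‖ ≤ C' * s.im ^ κ := by
    have := Complex.norm_deriv_le_of_forall_mem_sphere_norm_le (f := g) (c := s) (R := r)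
      (C := C * 2 ^ κ * s.im ^ κ) hr0
      (by
        apply DifferentiableOn.diffContOnCl
        rw [closure_ball s hr0.ne']
        intro w hw
        exact (hdg w (hreg w hw).1).differentiableWithinAt)
      (fun w hw => (hreg w (sphere_subset_closedBall hw)).2)
    refine this.trans ?_
    have e : C * 2 ^ κ * s.im ^ κ / r = C * 2 ^ κ / r * s.im ^ κ := by ring
    rw [e]
    gcongr
    rw [hC']; linarith
  -- size of G
  have hGlow : s.im ^ κ * s.im ^ δ ≤ ‖G s‖ := by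
    refine le_trans ?_ c3
    rw [← Real.rpow_add him]
    apply Real.rpow_le_rpow_of_exponent_le (by linarith)
    rw [hδ] at *
    linarith
  have hGpos : 0 < ‖G s‖ := norm_pos_iff.2 c1
  -- small quotient
  have hq : (1 + L) * (C' * s.im ^ κ) ≤ η * ‖G s‖ := by
    calc (1 + L) * (C' * s.im ^ κ) = η * (s.im ^ κ * (C' / η * (1 + L))) := by field_simp
      _ ≤ η * (s.im ^ κ * s.im ^ δ) := by gcongr
      _ ≤ η * ‖G s‖ := by gcongr
  have hX : 0 ≤ C' * s.im ^ κ := by positivity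
  have hX' : C' * s.im ^ κ ≤ (1 + L) * (C' * s.im ^ κ) := le_mul_of_one_le_left hX (by linarith)
  have hgs : ‖g s‖ ≤ η * ‖G s‖ := (hg1.trans hX').trans hq
  have hgs' : ‖g s‖ ≤ ‖G s‖ / 2 := by
    refine hgs.trans ?_
    calc η * ‖G s‖ ≤ 1 / 2 * ‖G s‖ := by gcongr
      _ = ‖G s‖ / 2 := by ring
  have hFlow : ‖G s‖ / 2 ≤ ‖G s - g s‖ := by
    have := norm_sub_norm_le (G s) (g s)
    linarith
  have hFup : ‖G s - g s‖ ≤ 2 * ‖G s‖ := by
    have := norm_sub_le (G s) (g s)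
    linarith
  have hFpos : 0 < ‖G s - g s‖ := by linarith
  have hF0 : G s - g s ≠ 0 := norm_pos_iff.1 hFpos
  have hFd : deriv (fun s => G s - g s) s = deriv G s - deriv g s :=
    ((hdG s hsU).hasDerivAt.sub (hdg s hsU).hasDerivAt).deriv
  refine ⟨hF0, ?_, ?_, ?_⟩
  · rw [hFd]
    have e : (deriv G s - deriv g s) / (G s - g s) + (L : ℂ) =
        ((deriv G s / G s + (L : ℂ)) * G s - (deriv g s + L * g s)) / (G s - g s) := by
      field_simp
      ring
    rw [e, norm_div, div_le_iff₀ hFpos]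
    have h1 : ‖(deriv G s / G s + (L : ℂ)) * G s - (deriv g s + L * g s)‖ ≤
        ε1 * L * ‖G s‖ + η * ‖G s‖ := by
      refine (norm_sub_le _ _).trans (add_le_add ?_ ?_)
      · rw [norm_mul]; gcongr
      · refine (norm_add_le _ _).trans ?_
        rw [norm_mul, Complex.norm_real, Real.norm_of_nonneg hL0.le]
        refine le_trans ?_ hq
        calc ‖deriv g s‖ + L * ‖g s‖ ≤ C' * s.im ^ κ + L * (C' * s.im ^ κ) := by gcongr
          _ = (1 + L) * (C' * s.im ^ κ) := by ring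
    refine h1.trans ?_
    have h2 : ε1 * L + η ≤ ε * L / 2 := by nlinarith
    calc ε1 * L * ‖G s‖ + η * ‖G s‖ = (ε1 * L + η) * ‖G s‖ := by ring
      _ ≤ (ε * L / 2) * ‖G s‖ := by gcongr
      _ = ε * L * (‖G s‖ / 2) := by ring
      _ ≤ ε * L * ‖G s - g s‖ := by gcongr
  · show s.im ^ (1 / 2 - s.re - ε) ≤ ‖G s - g s‖
    have e : s.im ^ (1 / 2 - s.re - ε / 2) = s.im ^ (1 / 2 - s.re - ε) * s.im ^ (ε / 2) := by
      rw [← Real.rpow_add him]; congr 1; ring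
    have h1 : s.im ^ (1 / 2 - s.re - ε / 2) ≤ s.im ^ (1 / 2 - s.re - ε1) :=
      Real.rpow_le_rpow_of_exponent_le (by linarith) (by linarith)
    have h2 : s.im ^ (1 / 2 - s.re - ε) * 2 ≤ s.im ^ (1 / 2 - s.re - ε) * s.im ^ (ε / 2) := by
      gcongr
    linarith
  · show ‖G s - g s‖ ≤ s.im ^ (1 / 2 - s.re + ε)
    have e : s.im ^ (1 / 2 - s.re + ε) = s.im ^ (ε / 2) * s.im ^ (1 / 2 - s.re + ε / 2) := by
      rw [← Real.rpow_add him]; congr 1; ring
    have h1 : s.im ^ (1 / 2 - s.re + ε1) ≤ s.im ^ (1 / 2 - s.re + ε / 2) :=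
      Real.rpow_le_rpow_of_exponent_le (by linarith) (by linarith)
    rw [e]
    calc ‖G s - g s‖ ≤ 2 * ‖G s‖ := hFup
      _ ≤ s.im ^ (ε / 2) * s.im ^ (1 / 2 - s.re + ε / 2) := by
        apply mul_le_mul b4 (c4.trans h1) hGpos.le (by positivity)

end Pool.Agent.H296R2.LE
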