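import Mathlib
import Pool.Agent.H296R2.LE.Rg

open Complex Filter Topology Set Metric

namespace Pool.Agent.H296R2.LE

theorem rpow_eq_exp {t : ℝ} (ht : 0 < t) (y : ℝ) : Real.exp (Real.log t * y) = t ^ y :=
  (Real.rpow_def_of_pos ht y).symm

theorem hasDerivAt_horizontal {F : ℂ → ℂ} {x t : ℝ} (h : DifferentiableAt ℂ F ((x : ℂ) + t * I)) :
    HasDerivAt (fun x : ℝ => F ((x : ℂ) + t * I)) (deriv F ((x : ℂ) + t * I)) x := by
  have h1 : HasDerivAt (fun x : ℝ => ((x : ℂ) + t * I)) 1 x := by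
    have := (hasDerivAt_id x).ofReal_comp.add_const ((t : ℂ) * I)
    simpa using this
  have h2 := h.hasDerivAt.comp x h1
  rw [Function.comp_def] at h2
  exact h2.congr_deriv (mul_one _)

theorem Rg.extend {a : ℝ} (ha0 : 0 < a) (ha : a ≤ 1 / 2) {F : ℂ → ℂ}
    (hF : DifferentiableOn ℂ F (U (-a) a))
    (hgr : ∀ b : ℝ, b < a → ∃ A C : ℝ, ∀ s : ℂ, -b ≤ s.re → s.re ≤ b → 1 ≤ s.im →
      ‖F s‖ ≤ C * s.im ^ A)
    (h : Rg (-a) 0 F)
    (hz : ∀ b : ℝ, b < a → ∃ T : ℝ, ∀ s : ℂ, -b < s.re → s.re < b → T ≤ s.im → F s ≠ 0) :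
    Rg (-a) a F := by
  intro l' u' hl hu ε hε
  set b0 := max u' (a / 2) with hb0
  have e1 : u' ≤ b0 := le_max_left _ _
  have e2 : a / 2 ≤ b0 := le_max_right _ _
  have e3 : b0 < a := max_lt hu (by linarith)
  set η := (a - b0) / 16 with hη
  have hη0 : 0 < η := by rw [hη]; linarith
  have hη1 : 16 * η = a - b0 := by rw [hη]; ring
  set b := b0 + 8 * η with hb
  have hba : b < a := by linarith
  obtain ⟨A0, C0, hgrb⟩ := hgr b hba
  obtain ⟨T0, hT0⟩ := hz b hba
  set A1 := max A0 0 with hA1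
  have hA10 : 0 ≤ A1 := le_max_right _ _
  have hA11 : A0 ≤ A1 := le_max_left _ _
  obtain ⟨ε', hε'0, hext⟩ := ext_ball (r := η) (ρ := b0 + 2 * η) (R := b - 2 * η) hη0 (by linarith)
    (by linarith) (A := A1 + 1) (ε := ε / 4) (by linarith) (by linarith)
  set ε2 := min (ε' / 3) (min (ε / 4) (1 / 4)) with hε2
  have hε20 : 0 < ε2 := lt_min (by linarith) (lt_min (by linarith) (by norm_num))
  have hε21 : ε2 ≤ ε' / 3 := min_le_left _ _
  have hε22 : ε2 ≤ ε / 4 := (min_le_right _ _).trans (min_le_left _ _)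
  have hε23 : ε2 ≤ 1 / 4 := (min_le_right _ _).trans (min_le_right _ _)
  obtain ⟨T1, hT1⟩ := h (-3 * η) (-η) (by linarith) (by linarith) ε2 hε20
  obtain ⟨T2, hT2⟩ := h l' (-η) hl (by linarith) ε hε
  obtain ⟨T3, hT3⟩ := large_log 1 hε20
  obtain ⟨T4, hT4⟩ := large_log 1 one_pos
  refine ⟨max 3 (max (T0 + 1) (max (T1 + 1) (max T2 (max T3 (max T4 (|C0| * 2 ^ A1)))))), ?_⟩
  intro s hs1 hs2 hs3
  simp only [max_le_iff] at hs3
  obtain ⟨a1, a2, a3, a4, a5, a6, a7⟩ := hs3
  rcases le_or_gt s.re (-η) with hcase | hcase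
  · exact hT2 s hs1 hcase a4
  set t := s.im with ht
  set L := Real.log t with hL
  have b3 := hT3 _ a5
  have b4 := hT4 _ a6
  rw [← hL] at b3 b4
  rw [one_mul] at b4
  have hL0 : 0 < L := by linarith
  have ht0 : 0 < t := by linarith
  set c : ℂ := ((-2 * η : ℝ) : ℂ) + t * I with hc
  have hcre : c.re = -2 * η := by simp [hc]
  have hcim : c.im = t := by simp [hc]
  have hball : ∀ z ∈ ball c (b - 2 * η), -b < z.re ∧ z.re < b ∧ |z.im - t| ≤ 1 := by
    intro z hz
    have hz' : z ∈ closedBall c (b - 2 * η) := ball_subset_closedBall hz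
    rw [mem_ball, dist_eq_norm] at hz
    have d1 : |z.re - c.re| < b - 2 * η :=
      lt_of_le_of_lt (by simpa using Complex.abs_re_le_norm (z - c)) hz
    have d2 := ball_im hz'
    rw [hcre] at d1
    rw [hcim] at d2
    have d3 := abs_lt.1 d1
    refine ⟨by linarith, by linarith, d2.trans (by linarith)⟩
  have hUb : ball c (b - 2 * η) ⊆ U (-a) a := by
    intro z hz
    obtain ⟨d1, d2, d3⟩ := hball z hz
    have := (abs_le.1 d3).1
    exact ⟨by linarith, by linarith, by linarith⟩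
  have hFc := hT1 c (by rw [hcre]; linarith) (by rw [hcre]; linarith) (by rw [hcim]; linarith)
  obtain ⟨f1, f2, f3, f4⟩ := hFc
  rw [hcre, hcim] at f3 f4
  have hFc1 : 1 ≤ ‖F c‖ := by
    refine le_trans ?_ f3
    exact Real.one_le_rpow (by linarith) (by linarith)
  have key := hext F c L hL0 (hF.mono hUb)
    (fun z hz => by
      obtain ⟨d1, d2, d3⟩ := hball z hz
      have := (abs_le.1 d3).1
      exact hT0 z d1 d2 (by linarith))
    (fun z hz => by
      obtain ⟨d1, d2, d3⟩ := hball z hz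
      have d4 := (abs_le.1 d3).1
      have d5 := (abs_le.1 d3).2
      have hzim : 0 < z.im := by linarith
      refine (hgrb z d1.le d2.le (by linarith)).trans ?_
      calc C0 * z.im ^ A0 ≤ |C0| * z.im ^ A0 :=
            mul_le_mul_of_nonneg_right (le_abs_self _) (by positivity)
        _ ≤ |C0| * z.im ^ A1 := by
            gcongr
            linarith
        _ ≤ |C0| * (2 * t) ^ A1 := by
            gcongr
            linarith
        _ = |C0| * 2 ^ A1 * t ^ A1 := by rw [Real.mul_rpow (by norm_num) ht0.le]; ring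
        _ ≤ t * t ^ A1 := by gcongr
        _ = Real.exp ((A1 + 1) * L) := by
            rw [hL, mul_comm (A1 + 1), rpow_eq_exp ht0, Real.rpow_add ht0, Real.rpow_one, mul_comm]) hFc1
    (fun z hz => by
      have c1 := abs_le.1 (ball_re hz)
      have c2 := ball_im hz
      rw [hcre] at c1
      rw [hcim] at c2
      have c3 := abs_le.1 c2
      have c4 := hT1 z (by linarith) (by linarith) (by linarith)
      refine (near_bound hL (by linarith) (c2.trans (by linarith)) (by linarith) b3 hε20 c4.2.1).trans ?_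
      gcongr
      linarith)
  have hseg : ∀ x ∈ Icc (-2 * η) s.re, ((x : ℂ) + t * I) ∈ closedBall c (b0 + 2 * η) := by
    intro x hx
    rw [mem_closedBall, dist_eq_norm]
    have : (x : ℂ) + t * I - c = ((x + 2 * η : ℝ) : ℂ) := by rw [hc]; push_cast; ring
    rw [this, Complex.norm_real, Real.norm_eq_abs, abs_of_nonneg (by linarith [hx.1])]
    linarith [hx.2]
  have hsub : closedBall c (b0 + 2 * η) ⊆ ball c (b - 2 * η) :=
    closedBall_subset_ball (by linarith)
  have hse : ((s.re : ℂ) + t * I) = s := by rw [ht]; exact Complex.re_add_im s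
  have hne : ∀ z ∈ ball c (b - 2 * η), F z ≠ 0 := fun z hz => by
    obtain ⟨d1, d2, d3⟩ := hball z hz
    have := (abs_le.1 d3).1
    exact hT0 z d1 d2 (by linarith)
  have hder : ∀ x ∈ Icc (-2 * η) s.re, HasDerivAt (fun x : ℝ => F ((x : ℂ) + t * I))
      (deriv F ((x : ℂ) + t * I)) x := by
    intro x hx
    apply hasDerivAt_horizontal
    have := hsub (hseg x hx)
    exact (hF _ (hUb this)).differentiableAt ((isOpen_U _ _).mem_nhds (hUb this))
  have hK : ∀ x ∈ Icc (-2 * η) s.re, ‖deriv F ((x : ℂ) + t * I) + (L : ℝ) * F ((x : ℂ) + t * I)‖ ≤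
      (ε / 4 * L) * ‖F ((x : ℂ) + t * I)‖ := by
    intro x hx
    have h1 := key _ (hseg x hx)
    have h2 := hne _ (hsub (hseg x hx))
    have e : deriv F ((x : ℂ) + t * I) + (L : ℝ) * F ((x : ℂ) + t * I) =
        (deriv F ((x : ℂ) + t * I) / F ((x : ℂ) + t * I) + (L : ℂ)) * F ((x : ℂ) + t * I) := by
      field_simp
    rw [e, norm_mul]
    gcongr
  have hab : -2 * η ≤ s.re := by linarith
  have hup := ratio_upper hab hder hK
  have hlow := ratio_lower hab hder hK
  rw [hse, ← hc] at hup hlow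
  have hsmem : s ∈ closedBall c (b0 + 2 * η) := by
    have := hseg s.re ⟨hab, le_rfl⟩
    rwa [hse] at this
  have hx1 : s.re + 2 * η ≤ 1 := by linarith
  have hx0 : 0 ≤ s.re + 2 * η := by linarith
  have hprod : ε / 4 * (s.re + 2 * η) ≤ ε / 4 := mul_le_of_le_one_right (by linarith) hx1
  refine ⟨hne s (hsub hsmem), ?_, ?_, ?_⟩
  · refine (key s hsmem).trans ?_
    gcongr
    linarith
  · have e : Real.exp ((ε / 4 * L + L) * (s.re - -2 * η)) = t ^ ((ε / 4 + 1) * (s.re + 2 * η)) := by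
      rw [← rpow_eq_exp ht0, ← hL]; congr 1; ring
    rw [e] at hlow
    have h1 : t ^ (1 / 2 - -2 * η - ε2) ≤ ‖F s‖ * t ^ ((ε / 4 + 1) * (s.re + 2 * η)) := f3.trans hlow
    have h2 : t ^ (1 / 2 - -2 * η - ε2 - (ε / 4 + 1) * (s.re + 2 * η)) ≤ ‖F s‖ := by
      rw [Real.rpow_sub ht0]
      rw [div_le_iff₀ (by positivity)]
      exact h1
    refine le_trans ?_ h2
    apply Real.rpow_le_rpow_of_exponent_le (by linarith)
    linarith
  · have e : Real.exp ((ε / 4 * L - L) * (s.re - -2 * η)) = t ^ ((ε / 4 - 1) * (s.re + 2 * η)) := by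
      rw [← rpow_eq_exp ht0, ← hL]; congr 1; ring
    rw [e] at hup
    refine hup.trans ?_
    calc ‖F c‖ * t ^ ((ε / 4 - 1) * (s.re + 2 * η))
        ≤ t ^ (1 / 2 - -2 * η + ε2) * t ^ ((ε / 4 - 1) * (s.re + 2 * η)) := by gcongr
      _ = t ^ (1 / 2 - -2 * η + ε2 + (ε / 4 - 1) * (s.re + 2 * η)) := by rw [← Real.rpow_add ht0]
      _ ≤ t ^ (1 / 2 - s.re + ε) := by
        apply Real.rpow_le_rpow_of_exponent_le (by linarith)
        linarith

end Pool.Agent.H296R2.LE
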