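import Mathlib
import Pool.Agent.H296R2.LE.Ext
import Pool.Agent.H388LH.OS

open Complex Filter Topology Set Metric

namespace Pool.Agent.H296R2.LE

open Pool.Agent.H388LH

/-- Phragmen-Lindelof: the bound on the left side propagates to the right -/
theorem pl_bound {a' κ T C2 A C : ℝ} (ha0 : 0 ≤ a') (ha1 : a' < 3) (hκ : 0 ≤ κ) {F : ℂ → ℂ}
    (hF : ∀ s : ℂ, 0 < s.im → DifferentiableAt ℂ F s)
    (h1 : ∀ s : ℂ, s.re = a' → T ≤ s.im → ‖F s‖ ≤ s.im ^ κ)
    (h2 : ∀ s : ℂ, s.re = 3 → 1 ≤ s.im → ‖F s‖ ≤ C2)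
    (hgr : ∀ s : ℂ, 0 ≤ s.re → s.re ≤ 3 → 1 ≤ s.im → ‖F s‖ ≤ C * s.im ^ A) :
    ∃ C' T' : ℝ, 0 ≤ C' ∧ 1 ≤ T' ∧ ∀ s : ℂ, a' ≤ s.re → s.re ≤ 3 → T' ≤ s.im → ‖F s‖ ≤ C' * s.im ^ κ := by
  set T' := max T 1 with hT'
  have hT1 : 1 ≤ T' := le_max_right _ _
  have hTT : T ≤ T' := le_max_left _ _
  have hT0 : 0 < T' := by linarith
  set A1 := max A 0 with hA1
  have hA10 : 0 ≤ A1 := le_max_right _ _
  set M := 1 + |C2| + |C| * T' ^ A with hM
  have hM1 : 1 ≤ M := by
    rw [hM]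
    have : 0 ≤ |C| * T' ^ A := by positivity
    have := abs_nonneg C2
    linarith
  have hM0 : 0 < M := by linarith
  have hV1 : ∀ s : ℂ, 1 ≤ s.im → 1 ≤ ‖V κ s‖ := by
    intro s hs
    have hne : s ≠ 0 := by intro h; rw [h] at hs; norm_num at hs
    rw [V_norm hne]
    exact Real.one_le_rpow (hs.trans (Complex.im_le_norm s)) hκ
  have hle : ∀ s : ℂ, 1 ≤ s.im → ‖F s / V κ s‖ ≤ ‖F s‖ := by
    intro s hs
    rw [norm_div]
    exact div_le_self (norm_nonneg _) (hV1 s hs)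
  have key := pl_half (a := a') (b := 3) (c := T') ha1 (f := fun s => F s / V κ s)
    (by
      rintro s ⟨_, _, c3⟩
      have him : 0 < s.im := by linarith
      refine (hF s him).div (V_diff him) ?_
      have := hV1 s (by linarith)
      exact norm_pos_iff.1 (by linarith)) hM0
    (by
      rintro s ⟨_, _, c3⟩ hs
      have him : 0 < s.im := by linarith
      have hne : s ≠ 0 := by intro h; rw [h] at him; norm_num at him
      rw [norm_div]
      refine le_trans ?_ hM1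
      apply div_le_one_of_le₀ _ (norm_nonneg _)
      rw [V_norm hne]
      refine (h1 s hs (by linarith)).trans ?_
      exact Real.rpow_le_rpow him.le (Complex.im_le_norm s) hκ)
    (by
      rintro s ⟨_, _, c3⟩ hs
      refine (hle s (by linarith)).trans ((h2 s hs (by linarith)).trans ?_)
      have : 0 ≤ |C| * T' ^ A := by positivity
      have := le_abs_self C2
      rw [hM]
      linarith)
    (by
      rintro s ⟨c1, c2, c3⟩ hs
      refine (hle s (by linarith)).trans ((hgr s (by linarith) (by linarith) (by linarith)).trans ?_)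
      rw [hs, hM]
      have h3 : C * T' ^ A ≤ |C| * T' ^ A := mul_le_mul_of_nonneg_right (le_abs_self _) (by positivity)
      have := abs_nonneg C2
      linarith)
    (by
      refine ⟨|C| + A1, 1, ?_⟩
      rintro s ⟨c1, c2, c3⟩
      have him : 1 ≤ s.im := by linarith
      have him0 : 0 < s.im := by linarith
      refine (hle s him).trans ((hgr s (by linarith) (by linarith) him).trans ?_)
      have h3 : s.im ^ A ≤ Real.exp (A1 * s.im) := by
        calc s.im ^ A ≤ s.im ^ A1 := Real.rpow_le_rpow_of_exponent_le him (le_max_left _ _)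
          _ = Real.exp (Real.log s.im * A1) := Real.rpow_def_of_pos him0 _
          _ ≤ Real.exp (A1 * s.im) := by
            apply Real.exp_le_exp.2
            have := Real.log_le_self him0.le
            nlinarith
      have h4 : |C| ≤ Real.exp |C| := by
        have := Real.add_one_le_exp |C|
        linarith
      calc C * s.im ^ A ≤ |C| * s.im ^ A := mul_le_mul_of_nonneg_right (le_abs_self _) (by positivity)
        _ ≤ Real.exp |C| * Real.exp (A1 * s.im) := by gcongr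
        _ = Real.exp (|C| + A1 * s.im) := by rw [Real.exp_add]
        _ ≤ Real.exp ((|C| + A1) * (1 + |s.im|) ^ 1) := by
          apply Real.exp_le_exp.2
          rw [abs_of_pos him0, pow_one]
          nlinarith [abs_nonneg C])
  refine ⟨M * 4 ^ κ, T', by positivity, hT1, ?_⟩
  intro s c1 c2 c3
  have him : 1 ≤ s.im := by linarith
  have him0 : 0 < s.im := by linarith
  have hne : s ≠ 0 := by intro h; rw [h] at him; norm_num at him
  have h3 := key s ⟨c1, c2, c3⟩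
  have hVpos : 0 < ‖V κ s‖ := by linarith [hV1 s him]
  rw [norm_div, div_le_iff₀ hVpos, V_norm hne] at h3
  refine h3.trans ?_
  rw [mul_assoc, ← Real.mul_rpow (by norm_num) him0.le]
  gcongr
  have := Complex.norm_le_abs_re_add_abs_im s
  rw [abs_of_nonneg (by linarith), abs_of_pos him0] at this
  linarith

/-- bound for the solution `G` of `G' - lam G = F` -/
theorem G_bound {a' κ T' C' C3 : ℝ} (ha1 : a' < 3) (ha0 : 0 ≤ a') (hκ : 0 ≤ κ) (lam : ℂ) {F G : ℂ → ℂ}
    (hT' : 1 ≤ T') (hC' : 0 ≤ C')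
    (hG : ∀ s : ℂ, 0 < s.im → DifferentiableAt ℂ G s)
    (hFG : ∀ s : ℂ, 0 < s.im → F s = deriv G s - lam * G s)
    (h1 : ∀ s : ℂ, a' ≤ s.re → s.re ≤ 3 → T' ≤ s.im → ‖F s‖ ≤ C' * s.im ^ κ)
    (h2 : ∀ s : ℂ, s.re = 3 → 1 ≤ s.im → ‖G s‖ ≤ C3) :
    ∃ D : ℝ, 0 ≤ D ∧ ∀ s : ℂ, s.re = a' → T' ≤ s.im → ‖G s‖ ≤ D * s.im ^ κ := by
  set E := Real.exp (3 * ‖lam‖) with hE
  have hE0 : 0 < E := Real.exp_pos _
  refine ⟨E * |C3| + E * C' * 3, by positivity, ?_⟩
  intro s hs1 hs2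
  have him : 1 ≤ s.im := by linarith
  have him0 : 0 < s.im := by linarith
  have hexp : ∀ x ∈ Icc a' 3, ‖cexp (-lam * ((x : ℂ) - a'))‖ ≤ E := by
    intro x hx
    rw [Complex.norm_exp, hE]
    apply Real.exp_le_exp.2
    refine (Complex.re_le_norm _).trans ?_
    rw [norm_mul, norm_neg, ← Complex.ofReal_sub, Complex.norm_real, Real.norm_eq_abs,
      abs_of_nonneg (by linarith [hx.1])]
    have := norm_nonneg lam
    have h3 : x - a' ≤ 3 := by linarith [hx.2]
    nlinarith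
  let φ : ℝ → ℂ := fun x => cexp (-lam * ((x : ℂ) - a')) * G ((x : ℂ) + s.im * I)
  have hφ : ∀ x : ℝ, HasDerivAt φ (cexp (-lam * ((x : ℂ) - a')) * F ((x : ℂ) + s.im * I)) x := by
    intro x
    have hz : 0 < ((x : ℂ) + s.im * I).im := by simpa using him0
    have d1 := hasDerivAt_horizontal (hG _ hz)
    have d2 : HasDerivAt (fun x : ℝ => -lam * ((x : ℂ) - a')) (-lam) x := by
      have := ((hasDerivAt_id x).ofReal_comp.sub_const (a' : ℂ)).const_mul (-lam)
      simpa using this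
    have d3 := d2.cexp.mul d1
    refine d3.congr_deriv ?_
    rw [hFG _ hz]
    ring
  have hmv := (convex_Icc a' 3).norm_image_sub_le_of_norm_hasDerivWithin_le (𝕜 := ℝ) (f := φ)
    (f' := fun x => cexp (-lam * ((x : ℂ) - a')) * F ((x : ℂ) + s.im * I)) (C := E * C' * s.im ^ κ)
    (fun x _ => (hφ x).hasDerivWithinAt)
    (fun x hx => by
      rw [norm_mul, mul_assoc]
      have := h1 ((x : ℂ) + s.im * I) (by simpa using hx.1) (by simpa using hx.2) (by simpa using hs2)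
      simp only [add_im, ofReal_im, mul_im, ofReal_re, I_im, mul_one, I_re, mul_zero, add_zero,
        zero_add] at this
      exact mul_le_mul (hexp x hx) this (norm_nonneg _) hE0.le)
    (right_mem_Icc.2 ha1.le) (left_mem_Icc.2 ha1.le)
  have e1 : φ a' = G s := by
    simp only [φ]
    rw [sub_self, mul_zero, Complex.exp_zero, one_mul, ← hs1, Complex.re_add_im]
  have e2 : ‖φ 3‖ ≤ E * |C3| := by
    simp only [φ]
    rw [norm_mul]
    have := h2 (((3 : ℝ) : ℂ) + s.im * I) (by simp) (by simpa using him)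
    exact mul_le_mul (hexp 3 ⟨ha1.le, le_rfl⟩) (this.trans (le_abs_self _)) (norm_nonneg _) hE0.le
  rw [e1] at hmv
  have h3 : ‖G s‖ ≤ ‖φ 3‖ + ‖G s - φ 3‖ := by
    have := norm_add_le (φ 3) (G s - φ 3)
    simpa using this
  have h4 : ‖a' - (3 : ℝ)‖ ≤ 3 := by
    rw [Real.norm_eq_abs, abs_le]; constructor <;> linarith
  have h5 : 1 ≤ s.im ^ κ := Real.one_le_rpow him hκ
  have h6 : E * C' * s.im ^ κ * ‖a' - (3 : ℝ)‖ ≤ E * C' * s.im ^ κ * 3 := by gcongr
  have h7 : E * |C3| ≤ E * |C3| * s.im ^ κ := le_mul_of_one_le_right (by positivity) h5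
  calc ‖G s‖ ≤ E * |C3| * s.im ^ κ + E * C' * s.im ^ κ * 3 := by linarith
    _ = (E * |C3| + E * C' * 3) * s.im ^ κ := by ring

/-- the main estimate: `G = -F/L` up to a small relative error -/
theorem main_est {σ a' ε1 κ D E t L : ℝ} {lam : ℂ} {F G : ℂ → ℂ} (hσ : σ ≤ a') (hσ1 : a' - σ ≤ 1)
    (hε1 : 0 < ε1) (hε12 : ε1 ≤ 1 / 2)
    (hF : ∀ s : ℂ, 0 < s.im → DifferentiableAt ℂ F s)
    (hG : ∀ s : ℂ, 0 < s.im → DifferentiableAt ℂ G s)
    (hFG : ∀ s : ℂ, 0 < s.im → F s = deriv G s - lam * G s)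
    (hE : E = Real.exp (3 * ‖lam‖)) (ht : 1 ≤ t) (hL : 1 ≤ L)
    (hlam : ‖lam‖ ≤ ε1 * L)
    (h1 : ∀ x ∈ Icc σ a', ‖deriv F ((x : ℂ) + t * I) + (L : ℝ) * F ((x : ℂ) + t * I)‖ ≤
      (ε1 * L) * ‖F ((x : ℂ) + t * I)‖)
    (hGa : ‖G ((a' : ℂ) + t * I)‖ ≤ D * t ^ κ) (hFa : ‖F ((a' : ℂ) + t * I)‖ ≤ t ^ κ)
    (hD : 0 ≤ D)
    (hbig : E * (D + 1) * t ^ κ ≤ ε1 * (‖F ((σ : ℂ) + t * I)‖ / L)) :
    ‖G ((σ : ℂ) + t * I) + F ((σ : ℂ) + t * I) / L‖ ≤ (4 * E + 1) * ε1 * (‖F ((σ : ℂ) + t * I)‖ / L) := by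
  have ht0 : 0 < t := by linarith
  have hL0 : 0 < L := by linarith
  have hE0 : 0 < E := by rw [hE]; exact Real.exp_pos _
  have hLc : (L : ℂ) ≠ 0 := by exact_mod_cast hL0.ne'
  have hz : ∀ x : ℝ, 0 < ((x : ℂ) + t * I).im := by intro x; simpa using ht0
  set N := ‖F ((σ : ℂ) + t * I)‖ with hN
  have hN0 : 0 ≤ N := norm_nonneg _
  have hFx : ∀ x ∈ Icc σ a', ‖F ((x : ℂ) + t * I)‖ ≤ N * Real.exp (-((1 - ε1) * L * (x - σ))) := by
    intro x hx
    have := ratio_upper (f := fun x : ℝ => F ((x : ℂ) + t * I)) (f' := fun x : ℝ => deriv F ((x : ℂ) + t * I))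
      (a := σ) (b := x) (K := ε1 * L) (l := L) hx.1
      (fun y hy => hasDerivAt_horizontal (hF _ (hz y)))
      (fun y hy => h1 y ⟨hy.1, hy.2.trans hx.2⟩)
    refine this.trans (le_of_eq ?_)
    rw [hN]
    congr 2
    ring
  have hexp : ∀ x ∈ Icc σ a', ‖cexp (-lam * ((x : ℂ) - σ))‖ ≤ E := by
    intro x hx
    rw [Complex.norm_exp, hE]
    apply Real.exp_le_exp.2
    refine (Complex.re_le_norm _).trans ?_
    rw [norm_mul, norm_neg, ← Complex.ofReal_sub, Complex.norm_real, Real.norm_eq_abs,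
      abs_of_nonneg (by linarith [hx.1])]
    have := norm_nonneg lam
    have h3 : x - σ ≤ 3 := by linarith [hx.2]
    nlinarith
  let Φ : ℝ → ℂ := fun x => cexp (-lam * ((x : ℂ) - σ)) *
    (G ((x : ℂ) + t * I) + F ((x : ℂ) + t * I) / L)
  let Φ' : ℝ → ℂ := fun x => cexp (-lam * ((x : ℂ) - σ)) *
    ((deriv F ((x : ℂ) + t * I) + L * F ((x : ℂ) + t * I) - lam * F ((x : ℂ) + t * I)) / L)
  have hΦ : ∀ x : ℝ, HasDerivAt Φ (Φ' x) x := by
    intro x
    have d1 := hasDerivAt_horizontal (hG _ (hz x))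
    have d1' := (hasDerivAt_horizontal (hF _ (hz x))).div_const (L : ℂ)
    have d2 : HasDerivAt (fun x : ℝ => -lam * ((x : ℂ) - σ)) (-lam) x := by
      have := ((hasDerivAt_id x).ofReal_comp.sub_const (σ : ℂ)).const_mul (-lam)
      simpa using this
    have d3 := d2.cexp.mul (d1.add d1')
    refine d3.congr_deriv ?_
    simp only [Φ', Pi.add_apply]
    rw [hFG _ (hz x)]
    field_simp
    ring
  set β := (1 - ε1) * L with hβ
  have hβ0 : L / 2 ≤ β := by rw [hβ]; nlinarith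
  have hβpos : 0 < β := by linarith
  set K := 2 * ε1 * E * N with hK
  have hK0 : 0 ≤ K := by positivity
  have hΦ'b : ∀ x ∈ Icc σ a', ‖Φ' x‖ ≤ K * Real.exp (-(β * (x - σ))) := by
    intro x hx
    simp only [Φ']
    rw [norm_mul, norm_div, Complex.norm_real, Real.norm_of_nonneg hL0.le]
    have c1 : ‖deriv F ((x : ℂ) + t * I) + L * F ((x : ℂ) + t * I) - lam * F ((x : ℂ) + t * I)‖ ≤
        2 * ε1 * L * ‖F ((x : ℂ) + t * I)‖ := by
      refine (norm_sub_le _ _).trans ?_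
      rw [norm_mul lam]
      have c2 := h1 x hx
      have c3 : ‖lam‖ * ‖F ((x : ℂ) + t * I)‖ ≤ ε1 * L * ‖F ((x : ℂ) + t * I)‖ := by gcongr
      linarith
    calc ‖cexp (-lam * ((x : ℂ) - σ))‖ * (‖deriv F ((x : ℂ) + t * I) + L * F ((x : ℂ) + t * I) -
          lam * F ((x : ℂ) + t * I)‖ / L)
        ≤ E * (2 * ε1 * L * ‖F ((x : ℂ) + t * I)‖ / L) := by
          gcongr
          exact hexp x hx
      _ = 2 * ε1 * E * ‖F ((x : ℂ) + t * I)‖ := by field_simp
      _ ≤ 2 * ε1 * E * (N * Real.exp (-(β * (x - σ)))) := by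
          gcongr
          exact hFx x hx
      _ = K * Real.exp (-(β * (x - σ))) := by rw [hK]; ring
  have hmv : ‖Φ a' - Φ σ‖ ≤ K / β := by
    have h3 := image_norm_le_of_norm_deriv_right_le_deriv_boundary (f := fun x => Φ x - Φ σ)
      (f' := Φ') (a := σ) (b := a')
      (B := fun x => K / β * (1 - Real.exp (-(β * (x - σ)))))
      (B' := fun x => K * Real.exp (-(β * (x - σ))))
      (fun x _ => ((hΦ x).continuousAt.sub continuousAt_const).continuousWithinAt)
      (fun x _ => ((hΦ x).sub_const _).hasDerivWithinAt)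
      (by simp)
      (fun x => by
        have d1 : HasDerivAt (fun x : ℝ => -(β * (x - σ))) (-β) x := by
          have := (((hasDerivAt_id x).sub_const σ).const_mul β).fun_neg
          simpa using this
        have d2 := (d1.exp.const_sub 1).const_mul (K / β)
        refine d2.congr_deriv ?_
        field_simp)
      (fun x hx => hΦ'b x ⟨hx.1, hx.2.le⟩) (right_mem_Icc.2 hσ)
    refine h3.trans ?_
    have h4 : 0 ≤ Real.exp (-(β * (a' - σ))) := (Real.exp_pos _).le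
    have h5 : 0 ≤ K / β := by positivity
    nlinarith
  have hΦσ : Φ σ = G ((σ : ℂ) + t * I) + F ((σ : ℂ) + t * I) / L := by
    simp only [Φ]
    rw [sub_self, mul_zero, Complex.exp_zero, one_mul]
  have hΦa : ‖Φ a'‖ ≤ E * (D + 1) * t ^ κ := by
    simp only [Φ]
    rw [norm_mul]
    have c1 : ‖G ((a' : ℂ) + t * I) + F ((a' : ℂ) + t * I) / L‖ ≤ (D + 1) * t ^ κ := by
      refine (norm_add_le _ _).trans ?_
      rw [norm_div, Complex.norm_real, Real.norm_of_nonneg hL0.le]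
      have : ‖F ((a' : ℂ) + t * I)‖ / L ≤ ‖F ((a' : ℂ) + t * I)‖ := div_le_self (norm_nonneg _) hL
      linarith
    rw [mul_assoc]
    exact mul_le_mul (hexp a' ⟨hσ, le_rfl⟩) c1 (norm_nonneg _) hE0.le
  rw [← hΦσ]
  have h6 : K / β ≤ 4 * E * ε1 * (N / L) := by
    rw [div_le_iff₀ hβpos]
    have : 4 * E * ε1 * (N / L) * (L / 2) = K := by
      rw [hK]; field_simp; ring
    calc K = 4 * E * ε1 * (N / L) * (L / 2) := this.symm
      _ ≤ 4 * E * ε1 * (N / L) * β := by gcongr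
  have h7 : ‖Φ σ‖ ≤ ‖Φ a'‖ + ‖Φ a' - Φ σ‖ := by
    have := norm_sub_le (Φ a') (Φ a' - Φ σ)
    simpa using this
  calc ‖Φ σ‖ ≤ ε1 * (N / L) + 4 * E * ε1 * (N / L) := by linarith
    _ = (4 * E + 1) * ε1 * (N / L) := by ring

end Pool.Agent.H296R2.LE
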