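import Mathlib
import Pool.Agent.H296R2.LE.Up

open Complex Filter Topology Set Metric

namespace Pool.Agent.H296R2.LE

theorem Rg.up {a : ℝ} (ha0 : 0 < a) (ha : a ≤ 1 / 2) (lam : ℂ) {F G : ℂ → ℂ}
    (hF : ∀ s : ℂ, 0 < s.im → DifferentiableAt ℂ F s)
    (hG : ∀ s : ℂ, 0 < s.im → DifferentiableAt ℂ G s)
    (hFG : ∀ s : ℂ, 0 < s.im → F s = deriv G s - lam * G s)
    (hgr : ∃ A C : ℝ, ∀ s : ℂ, 0 ≤ s.re → s.re ≤ 3 → 1 ≤ s.im → ‖F s‖ ≤ C * s.im ^ A)
    (hF3 : ∃ C : ℝ, ∀ s : ℂ, s.re = 3 → 1 ≤ s.im → ‖F s‖ ≤ C)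
    (hG3 : ∃ C : ℝ, ∀ s : ℂ, s.re = 3 → 1 ≤ s.im → ‖G s‖ ≤ C)
    (h : Rg (-a) a F) : Rg (-a) a G := by
  obtain ⟨A, C, hgr⟩ := hgr
  obtain ⟨C2, hF3⟩ := hF3
  obtain ⟨C3, hG3⟩ := hG3
  intro l' u' hl hu ε hε
  set b0 := max u' (a / 2) with hb0
  have e1 : u' ≤ b0 := le_max_left _ _
  have e2 : a / 2 ≤ b0 := le_max_right _ _
  have e3 : b0 < a := max_lt hu (by linarith)
  set δ := (a - b0) / 4 with hδ
  have hδ0 : 0 < δ := by rw [hδ]; linarith
  have hδ1 : 4 * δ = a - b0 := by rw [hδ]; ring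
  set a' := b0 + 2 * δ with ha'
  have ha'a : a' < a := by linarith
  have ha'0 : 0 ≤ a' := by linarith
  set E := Real.exp (3 * ‖lam‖) with hE
  have hE1 : 1 ≤ E := by rw [hE]; exact Real.one_le_exp (by positivity)
  set Q := 4 * E + 1 with hQ
  have hQ0 : 0 < Q := by linarith
  have hQ5 : 5 ≤ Q := by linarith
  set ε1 := min (min (ε / (8 * Q)) (1 / (2 * Q))) (δ / 2) with hε1
  have hε10 : 0 < ε1 := lt_min (lt_min (by positivity) (by positivity)) (by linarith)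
  have hε1a : Q * ε1 ≤ ε / 8 := by
    have : ε1 ≤ ε / (8 * Q) := (min_le_left _ _).trans (min_le_left _ _)
    calc Q * ε1 ≤ Q * (ε / (8 * Q)) := by gcongr
      _ = ε / 8 := by field_simp
  have hε1b : Q * ε1 ≤ 1 / 2 := by
    have : ε1 ≤ 1 / (2 * Q) := (min_le_left _ _).trans (min_le_right _ _)
    calc Q * ε1 ≤ Q * (1 / (2 * Q)) := by gcongr
      _ = 1 / 2 := by field_simp
  have hε1c : ε1 ≤ δ / 2 := min_le_right _ _
  have hε1Q : ε1 ≤ Q * ε1 := le_mul_of_one_le_left hε10.le (by linarith)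
  set κ := 1 / 2 - a' + ε1 with hκ
  have hκ0 : 0 ≤ κ := by rw [hκ]; linarith
  set l0 := min l' 0 with hl0
  have hl0l : l0 ≤ l' := min_le_left _ _
  have hl00 : l0 ≤ 0 := min_le_right _ _
  have hl0a : -a < l0 := lt_min hl (by linarith)
  obtain ⟨T1, hT1⟩ := h l0 a' hl0a ha'a ε1 hε10
  obtain ⟨C', T', hC', hT', hb⟩ := pl_bound (T := T1) (C2 := C2) (A := A) (C := C) ha'0 (by linarith) hκ0 hF
    (fun s hs1 hs2 => by
      have := (hT1 s (by linarith) hs1.le hs2).2.2.2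
      rw [hs1] at this
      exact this) hF3 hgr
  obtain ⟨D, hD0, hD⟩ := G_bound (C3 := C3) (by linarith) ha'0 hκ0 lam hT' hC' hG hFG hb hG3
  obtain ⟨T2, hT2⟩ := large_log 2 one_pos
  obtain ⟨T3, hT3⟩ := large_log ‖lam‖ hε10
  obtain ⟨T4, hT4⟩ := large_log_rpow (show 0 < E * (D + 1) / ε1 by positivity) hδ0
  obtain ⟨T5, hT5⟩ := large_log_rpow (show (0 : ℝ) < 2 by norm_num) (show (0 : ℝ) < ε / 2 by linarith)
  refine ⟨max 3 (max T1 (max T' (max T2 (max T3 (max T4 T5))))), ?_⟩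
  intro s hs1 hs2 hs3
  simp only [max_le_iff] at hs3
  obtain ⟨a1, a2, a3, a4, a5, a6, a7⟩ := hs3
  set t := s.im with ht
  set L := Real.log t with hL
  have b2 := hT2 _ a4
  have b3 := hT3 _ a5
  have b4 := hT4 _ a6
  have b5 := hT5 _ a7
  rw [← hL] at b2 b3 b4 b5
  rw [one_mul] at b2
  have hL0 : 0 < L := by linarith
  have ht0 : 0 < t := by linarith
  have hse : ((s.re : ℂ) + t * I) = s := by rw [ht]; exact Complex.re_add_im s
  have hσa : s.re ≤ a' := by linarith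
  obtain ⟨f1, f2, f3, f4⟩ := hT1 s (by linarith) hσa a2
  have hFpos : 0 < ‖F s‖ := norm_pos_iff.2 f1
  have hbig : E * (D + 1) * t ^ κ ≤ ε1 * (‖F s‖ / L) := by
    have c1 : t ^ κ * t ^ δ ≤ ‖F s‖ := by
      refine le_trans ?_ f3
      rw [← Real.rpow_add ht0]
      apply Real.rpow_le_rpow_of_exponent_le (by linarith)
      rw [hκ]
      linarith
    have c2 : E * (D + 1) / ε1 * L ≤ t ^ δ := by
      refine le_trans ?_ b4
      have : 0 < E * (D + 1) / ε1 := by positivity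
      nlinarith
    rw [mul_div_assoc', le_div_iff₀ hL0]
    calc E * (D + 1) * t ^ κ * L = ε1 * (t ^ κ * (E * (D + 1) / ε1 * L)) := by field_simp
      _ ≤ ε1 * (t ^ κ * t ^ δ) := by gcongr
      _ ≤ ε1 * ‖F s‖ := by gcongr
  have hxim : ∀ x : ℝ, ((x : ℂ) + t * I).im = t := by intro x; simp
  have hxre : ∀ x : ℝ, ((x : ℂ) + t * I).re = x := by intro x; simp
  have key := main_est (σ := s.re) (a' := a') (ε1 := ε1) (κ := κ) (D := D) (E := E) (t := t) (L := L)
    (lam := lam) (F := F) (G := G) hσa (by linarith) hε10 (by linarith) hF hG hFG hE (by linarith)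
    (by linarith) b3
    (fun x hx => by
      have h3 := hT1 ((x : ℂ) + t * I) (by rw [hxre]; linarith [hx.1]) (by rw [hxre]; exact hx.2)
        (by rw [hxim]; exact a2)
      rw [hxim, ← hL] at h3
      have h4 := h3.1
      have e : deriv F ((x : ℂ) + t * I) + (L : ℝ) * F ((x : ℂ) + t * I) =
          (deriv F ((x : ℂ) + t * I) / F ((x : ℂ) + t * I) + (L : ℂ)) * F ((x : ℂ) + t * I) := by
        field_simp
      rw [e, norm_mul]
      gcongr
      exact h3.2.1)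
    (by
      have := hD ((a' : ℂ) + t * I) (hxre _) (by rw [hxim]; exact a3)
      rwa [hxim] at this)
    (by
      have := (hT1 ((a' : ℂ) + t * I) (by rw [hxre]; linarith) (by rw [hxre]) (by rw [hxim]; exact a2)).2.2.2
      rwa [hxim, hxre] at this) hD0
    (by rw [hse]; exact hbig)
  rw [hse, ← hQ] at key
  have hLc : (L : ℂ) ≠ 0 := by exact_mod_cast hL0.ne'
  have hnFL : ‖F s / L‖ = ‖F s‖ / L := by
    rw [norm_div, Complex.norm_real, Real.norm_of_nonneg hL0.le]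
  set N := ‖F s‖ / L with hN
  have hN0 : 0 < N := by positivity
  have hFN : ‖F s‖ = N * L := by rw [hN]; field_simp
  have hkey2 : ‖G s + F s / L‖ ≤ N / 2 := by
    refine key.trans ?_
    calc Q * ε1 * N ≤ 1 / 2 * N := by gcongr
      _ = N / 2 := by ring
  have hGlow : N / 2 ≤ ‖G s‖ := by
    have := norm_sub_norm_le (-(F s / L)) (-(F s / L) - G s)
    rw [norm_neg, hnFL, sub_sub_cancel] at this
    have e : ‖-(F s / L) - G s‖ = ‖G s + F s / L‖ := by
      rw [← norm_neg]; congr 1; ring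
    rw [e] at this
    linarith
  have hGup : ‖G s‖ ≤ 2 * N := by
    have := norm_sub_le (G s + F s / L) (F s / L)
    rw [add_sub_cancel_right, hnFL] at this
    linarith
  have hGpos : 0 < ‖G s‖ := by linarith
  have hG0 : G s ≠ 0 := norm_pos_iff.1 hGpos
  refine ⟨hG0, ?_, ?_, ?_⟩
  · have e : deriv G s / G s + (L : ℂ) = lam + L * (G s + F s / L) / G s := by
      have := hFG s (by rw [← ht]; exact ht0)
      rw [this]
      field_simp
      ring
    rw [e]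
    refine (norm_add_le _ _).trans ?_
    have h5 : ‖L * (G s + F s / L) / G s‖ ≤ 2 * (Q * ε1) * L := by
      rw [norm_div, norm_mul, Complex.norm_real, Real.norm_of_nonneg hL0.le, div_le_iff₀ hGpos]
      calc L * ‖G s + F s / L‖ ≤ L * (Q * ε1 * N) := by gcongr
        _ = 2 * (Q * ε1) * L * (N / 2) := by ring
        _ ≤ 2 * (Q * ε1) * L * ‖G s‖ := by gcongr
    have h6 : ‖lam‖ ≤ ε / 8 * L := b3.trans (by gcongr; linarith)
    have h7 : 2 * (Q * ε1) * L ≤ ε / 4 * L := by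
      have : 2 * (Q * ε1) ≤ ε / 4 := by linarith
      gcongr
    have h8 : 0 < ε * L := by positivity
    linarith
  · have c1 : s.im ^ (1 / 2 - s.re - ε / 2) = t ^ (1 / 2 - s.re - ε) * t ^ (ε / 2) := by
      rw [← Real.rpow_add ht0]; congr 1; ring
    have c2 : t ^ (1 / 2 - s.re - ε / 2) ≤ t ^ (1 / 2 - s.re - ε1) :=
      Real.rpow_le_rpow_of_exponent_le (by linarith) (by linarith)
    have c3 : t ^ (1 / 2 - s.re - ε) * (2 * L) ≤ t ^ (1 / 2 - s.re - ε) * t ^ (ε / 2) := by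
      gcongr
      linarith
    have c4 : t ^ (1 / 2 - s.re - ε) * (2 * L) ≤ N * L := by
      rw [← hFN]
      exact c3.trans (c1.symm.le.trans (c2.trans f3))
    have c5 : t ^ (1 / 2 - s.re - ε) * 2 ≤ N := by
      have : t ^ (1 / 2 - s.re - ε) * 2 * L ≤ N * L := by linarith
      exact le_of_mul_le_mul_right this hL0
    show t ^ (1 / 2 - s.re - ε) ≤ ‖G s‖
    linarith
  · have c1 : 2 * N ≤ ‖F s‖ := by
      rw [hFN]
      nlinarith
    calc ‖G s‖ ≤ ‖F s‖ := hGup.trans c1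
      _ ≤ t ^ (1 / 2 - s.re + ε1) := f4
      _ ≤ t ^ (1 / 2 - s.re + ε) := Real.rpow_le_rpow_of_exponent_le (by linarith) (by linarith)

end Pool.Agent.H296R2.LE
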