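import Mathlib
import Pool.Agent.H296R2.LE.Ext
import Pool.Agent.H345R2.Chi
import Pool.Agent.H388LH.SM

open Complex Filter Topology Set Metric ComplexConjugate

namespace Pool.Agent.H296R2.LE

theorem zeta_diff {s : ℂ} (hs : 0 < s.im) : DifferentiableAt ℂ riemannZeta s :=
  Pool.Agent.H388LH.diffAt_zeta_im hs

/-- functional equation -/
theorem zeta_fe' {s : ℂ} (hs0 : s.re < 1) (hs : s.im ≠ 0) :
    riemannZeta s = conj (H345.XX (1 - conj s) * riemannZeta (1 - conj s)) := by
  have h := H345.zeta_fe (1 - s) (by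
    intro n hn
    have := congrArg Complex.re hn
    simp only [sub_re, one_re, neg_re, natCast_re] at this
    have h : (0 : ℝ) ≤ n := Nat.cast_nonneg n
    linarith) (by
    intro hn
    have := congrArg Complex.im hn
    simp at this
    exact hs this)
  rw [sub_sub_cancel] at h
  rw [h, map_mul, ← H345.Chi.XX_conj, ← riemannZeta_conj]
  simp [map_sub]

/-- bounds to the right of `Re s = 1` -/
theorem zeta_right {η : ℝ} (hη : 0 < η) : ∃ K : ℝ, 0 < K ∧ ∀ w : ℂ, 1 + η ≤ w.re → w.re ≤ 2 →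
    ‖deriv riemannZeta w / riemannZeta w‖ ≤ K ∧ Real.exp (-K) ≤ ‖riemannZeta w‖ ∧
      ‖riemannZeta w‖ ≤ Real.exp K := by
  set f : ℕ → ℂ := fun n => ((ArithmeticFunction.vonMangoldt n : ℝ) : ℂ) with hf
  have hs0 : LSeriesSummable f ((1 + η : ℝ) : ℂ) :=
    ArithmeticFunction.LSeriesSummable_vonMangoldt (by simp; linarith)
  set K0 := ∑' n, ‖LSeries.term f ((1 + η : ℝ) : ℂ) n‖ with hK0
  have hK00 : 0 ≤ K0 := tsum_nonneg fun n => norm_nonneg _
  have hlog : ∀ w : ℂ, 1 + η ≤ w.re → ‖deriv riemannZeta w / riemannZeta w‖ ≤ K0 := by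
    intro w hw
    have h1 := ArithmeticFunction.LSeries_vonMangoldt_eq_deriv_riemannZeta_div (s := w) (by linarith)
    have h2 : deriv riemannZeta w / riemannZeta w = -LSeries f w := by
      rw [hf, h1]; ring
    rw [h2, norm_neg, LSeries]
    apply tsum_of_norm_bounded hs0.norm.hasSum
    intro n
    exact LSeries.norm_term_le_of_re_le_re f (by simpa using hw) n
  refine ⟨K0 + 2, by linarith, ?_⟩
  intro w hw1 hw2
  have hne : ∀ z : ℂ, 1 + η ≤ z.re → riemannZeta z ≠ 0 := fun z hz =>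
    riemannZeta_ne_zero_of_one_lt_re (by linarith)
  have hne1 : ∀ z : ℂ, 1 + η ≤ z.re → z ≠ 1 := by
    intro z hz h
    rw [h] at hz
    simp at hz
    linarith
  have hre : ∀ x : ℝ, ((x : ℂ) + w.im * I).re = x := by intro x; simp
  have hder : ∀ x ∈ Icc w.re 2, HasDerivAt (fun x : ℝ => riemannZeta ((x : ℂ) + w.im * I))
      (deriv riemannZeta ((x : ℂ) + w.im * I)) x := by
    intro x hx
    apply hasDerivAt_horizontal
    exact differentiableAt_riemannZeta (hne1 _ (by rw [hre]; linarith [hx.1]))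
  have hK : ∀ x ∈ Icc w.re 2, ‖deriv riemannZeta ((x : ℂ) + w.im * I) +
      (0 : ℝ) * riemannZeta ((x : ℂ) + w.im * I)‖ ≤ K0 * ‖riemannZeta ((x : ℂ) + w.im * I)‖ := by
    intro x hx
    have h1 := hlog ((x : ℂ) + w.im * I) (by rw [hre]; linarith [hx.1])
    have h2 : 0 < ‖riemannZeta ((x : ℂ) + w.im * I)‖ :=
      norm_pos_iff.2 (hne _ (by rw [hre]; linarith [hx.1]))
    rw [norm_div, div_le_iff₀ h2] at h1
    simpa using h1
  have hup := ratio_lower hw2 hder hK
  have hlow := ratio_upper hw2 hder hK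
  have hse : ((w.re : ℂ) + w.im * I) = w := Complex.re_add_im w
  have h2l := H345.Chi.zeta_two_lower w.im
  have h2u := H345.Chi.zeta_two_line w.im
  have e2 : (((2 : ℝ) : ℂ) + w.im * I) = 2 + (w.im : ℂ) * I := by push_cast; ring
  rw [hse, e2] at hup hlow
  have h2u' : ‖riemannZeta (2 + (w.im : ℂ) * I)‖ ≤ 2 := by
    have := norm_sub_norm_le (riemannZeta (2 + (w.im : ℂ) * I)) 1
    rw [norm_one] at this
    linarith
  have hx : Real.exp (K0 * (2 - w.re)) ≤ Real.exp K0 := by
    apply Real.exp_le_exp.2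
    have : 2 - w.re ≤ 1 := by linarith
    nlinarith
  rw [add_zero] at hup
  rw [sub_zero] at hlow
  have h3 : (3 : ℝ) ≤ Real.exp 2 := by
    have := Real.add_one_le_exp (2 : ℝ)
    linarith
  have hE : 0 < Real.exp K0 := Real.exp_pos _
  refine ⟨(hlog w hw1).trans (by linarith), ?_, ?_⟩
  · have h4 : 1 / 3 ≤ ‖riemannZeta w‖ * Real.exp K0 := by
      refine h2l.trans (hlow.trans ?_)
      gcongr
    rw [Real.exp_neg, Real.exp_add]
    rw [inv_le_iff_one_le_mul₀ (by positivity)]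
    nlinarith [norm_nonneg (riemannZeta w)]
  · rw [Real.exp_add]
    calc ‖riemannZeta w‖ ≤ ‖riemannZeta (2 + (w.im : ℂ) * I)‖ * Real.exp (K0 * (2 - w.re)) := hup
      _ ≤ 3 * Real.exp K0 := by
        apply mul_le_mul (by linarith) hx (Real.exp_pos _).le (by norm_num)
      _ ≤ Real.exp K0 * Real.exp 2 := by nlinarith

theorem rg_zeta : Rg (-1) 0 riemannZeta := by
  intro l' u' hl hu ε hε
  obtain ⟨K1, hK1, hb1⟩ := zeta_right (η := -u') (by linarith)
  obtain ⟨K2, hK2, hb2⟩ := H345.Chi.L2_bound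
  obtain ⟨K3, hK3, hb3⟩ := H345.Chi.XX_size
  obtain ⟨T1, hT1⟩ := large_log (K1 + K2) hε
  obtain ⟨T2, hT2⟩ := large_rpow (Real.exp (K1 + K3)) hε
  refine ⟨max 1 (max T1 T2), ?_⟩
  intro s hs1 hs2 hs3
  simp only [max_le_iff] at hs3
  obtain ⟨a1, a2, a3⟩ := hs3
  have b1 := hT1 _ a2
  have b2 := hT2 _ a3
  have him : 0 < s.im := by linarith
  set w := 1 - conj s with hw
  have hwre : w.re = 1 - s.re := by simp [hw]
  have hwim : w.im = s.im := by simp [hw]
  have hsre : s.re < 1 := by linarith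
  have hfe : ∀ z : ℂ, z.re < 1 → z.im ≠ 0 →
      riemannZeta z = conj (H345.XX (1 - conj z) * riemannZeta (1 - conj z)) :=
    fun z h1 h2 => zeta_fe' h1 h2
  obtain ⟨d1, d2, d3⟩ := hb1 w (by rw [hwre]; linarith) (by rw [hwre]; linarith)
  have d4 := hb2 w (by rw [hwre]; linarith) (by rw [hwre]; linarith) (by rw [hwim]; exact a1)
  have d5 := hb3 w (by rw [hwre]; linarith) (by rw [hwre]; linarith) (by rw [hwim]; exact a1)
  rw [hwim] at d4 d5
  rw [hwre] at d5
  have eexp : 1 - s.re - 1 / 2 = 1 / 2 - s.re := by ring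
  rw [eexp] at d5
  have hz0 : riemannZeta w ≠ 0 := riemannZeta_ne_zero_of_one_lt_re (by rw [hwre]; linarith)
  have hX0 : H345.XX w ≠ 0 := H345.Chi.XX_ne (by rw [hwre]; linarith) (by rw [hwim]; exact a1)
  have hzs := hfe s hsre him.ne'
  rw [← hw] at hzs
  have hzs0 : riemannZeta s ≠ 0 := by
    rw [hzs]
    exact (map_ne_zero _).2 (mul_ne_zero hX0 hz0)
  -- derivative
  have hH : HasDerivAt (fun z => H345.XX z * riemannZeta z)
      (H345.XX w * H345.Chi.L2 w * riemannZeta w + H345.XX w * deriv riemannZeta w) w :=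
    (H345.Chi.hasDerivAt_XX (by rw [hwre]; linarith) (by rw [hwim]; exact a1)).mul
      (zeta_diff (by rw [hwim]; exact him)).hasDerivAt
  have hHs : HasDerivAt (fun z : ℂ => H345.XX (1 - z) * riemannZeta (1 - z))
      (-(H345.XX w * H345.Chi.L2 w * riemannZeta w + H345.XX w * deriv riemannZeta w)) (conj s) := by
    have h1 : HasDerivAt (fun z : ℂ => 1 - z) (-1) (conj s) := by
      simpa using (hasDerivAt_id (conj s)).const_sub 1
    have h2 : HasDerivAt (fun z => H345.XX z * riemannZeta z)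
      (H345.XX w * H345.Chi.L2 w * riemannZeta w + H345.XX w * deriv riemannZeta w) (1 - conj s) := hH
    have h3 := h2.comp (conj s) h1
    rw [mul_neg_one] at h3
    exact h3
  have hcc := hHs.conj_conj
  rw [Complex.conj_conj] at hcc
  have hev : riemannZeta =ᶠ[𝓝 s] (⇑conj ∘ (fun z : ℂ => H345.XX (1 - z) * riemannZeta (1 - z)) ∘ ⇑conj) := by
    have ho : IsOpen {z : ℂ | z.re < 1 ∧ 0 < z.im} :=
      (isOpen_lt Complex.continuous_re continuous_const).inter
        (isOpen_lt continuous_const Complex.continuous_im)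
    filter_upwards [ho.mem_nhds ⟨hsre, him⟩] with z hz
    exact hfe z hz.1 (ne_of_gt hz.2)
  have hder := (hcc.congr_of_eventuallyEq hev).deriv
  have hquot : deriv riemannZeta s / riemannZeta s =
      -conj (H345.Chi.L2 w + deriv riemannZeta w / riemannZeta w) := by
    rw [hder, hzs, ← map_neg, ← map_div₀]
    congr 1
    field_simp
  refine ⟨hzs0, ?_, ?_, ?_⟩
  · rw [hquot]
    have e : -conj (H345.Chi.L2 w + deriv riemannZeta w / riemannZeta w) + (Real.log s.im : ℂ) =
        -conj ((H345.Chi.L2 w - (Real.log s.im : ℂ)) + deriv riemannZeta w / riemannZeta w) := by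
      simp only [map_add, map_sub, Complex.conj_ofReal]
      ring
    rw [e, norm_neg, Complex.norm_conj]
    refine (norm_add_le _ _).trans ?_
    linarith
  · rw [hzs, Complex.norm_conj, norm_mul]
    have h1 : s.im ^ (1 / 2 - s.re - ε) * s.im ^ ε = s.im ^ (1 / 2 - s.re) := by
      rw [← Real.rpow_add him]; congr 1; ring
    have hp : 0 < s.im ^ (1 / 2 - s.re - ε) := Real.rpow_pos_of_pos him _
    have h2 : s.im ^ (1 / 2 - s.re - ε) * Real.exp (K1 + K3) ≤ s.im ^ (1 / 2 - s.re) := by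
      rw [← h1]; gcongr
    have h3 : Real.exp (-K3) * s.im ^ (1 / 2 - s.re) * Real.exp (-K1) ≤
        ‖H345.XX w‖ * ‖riemannZeta w‖ := mul_le_mul d5.1 d2 (Real.exp_pos _).le (norm_nonneg _)
    have h4 : Real.exp (-K3) * (s.im ^ (1 / 2 - s.re - ε) * Real.exp (K1 + K3)) * Real.exp (-K1) =
        s.im ^ (1 / 2 - s.re - ε) := by
      have : Real.exp (-K3) * Real.exp (K1 + K3) * Real.exp (-K1) = 1 := by
        rw [← Real.exp_add, ← Real.exp_add]; simp
      calc _ = s.im ^ (1 / 2 - s.re - ε) * (Real.exp (-K3) * Real.exp (K1 + K3) * Real.exp (-K1)) := by ring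
        _ = _ := by rw [this, mul_one]
    rw [← h4]
    refine le_trans ?_ h3
    gcongr
  · rw [hzs, Complex.norm_conj, norm_mul]
    have h1 : s.im ^ (1 / 2 - s.re + ε) = s.im ^ (1 / 2 - s.re) * s.im ^ ε := by
      rw [← Real.rpow_add him]
    rw [h1]
    calc ‖H345.XX w‖ * ‖riemannZeta w‖ ≤ (Real.exp K3 * s.im ^ (1 / 2 - s.re)) * Real.exp K1 :=
          mul_le_mul d5.2 d3 (norm_nonneg _) (by positivity)
      _ = s.im ^ (1 / 2 - s.re) * Real.exp (K1 + K3) := by rw [Real.exp_add]; ring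
      _ ≤ s.im ^ (1 / 2 - s.re) * s.im ^ ε := by gcongr

/-- polynomial growth of `ζ` -/
theorem zeta_growth2 : ∃ C : ℝ, 0 ≤ C ∧ ∀ s : ℂ, -1 ≤ s.re → s.re ≤ 4 → 1 ≤ s.im →
    ‖riemannZeta s‖ ≤ C * s.im ^ 3 := by
  obtain ⟨K, hK, hX⟩ := H345.Chi.XX_size
  refine ⟨30 + 18 * Real.exp K, by positivity, ?_⟩
  intro s hs1 hs2 hs3
  have him : 0 < s.im := by linarith
  have hE := Real.exp_pos K
  have h3 : s.im ≤ s.im ^ 3 := le_self_pow₀ hs3 (by norm_num)
  rcases le_or_gt (1 / 4) s.re with h | h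
  · have h1 := Pool.Agent.H388LH.zeta_growth h hs3
    have h2 := Complex.norm_le_abs_re_add_abs_im s
    rw [abs_of_pos him, abs_of_nonneg (by linarith)] at h2
    have h4 : 0 ≤ 18 * Real.exp K * s.im ^ 3 := by positivity
    nlinarith
  · have h1 := zeta_fe' (s := s) (by linarith) him.ne'
    set w := 1 - conj s with hw
    have hwre : w.re = 1 - s.re := by simp [hw]
    have hwim : w.im = s.im := by simp [hw]
    have h2 := (hX w (by rw [hwre]; linarith) (by rw [hwre]; linarith) (by rw [hwim]; exact hs3)).2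
    have h4 := Pool.Agent.H388LH.zeta_growth (s := w) (by rw [hwre]; linarith) (by rw [hwim]; exact hs3)
    have h5 := Complex.norm_le_abs_re_add_abs_im w
    rw [hwim, hwre, abs_of_pos him, abs_of_nonneg (by linarith)] at h5
    rw [hwim, hwre] at h2
    have h6 : s.im ^ (1 - s.re - 1 / 2) ≤ s.im ^ (2 : ℝ) :=
      Real.rpow_le_rpow_of_exponent_le hs3 (by linarith)
    have h6' : s.im ^ (2 : ℝ) = s.im ^ 2 := by norm_num
    rw [h6'] at h6
    rw [h1, Complex.norm_conj, norm_mul]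
    have h7 : ‖riemannZeta w‖ ≤ 18 * s.im := by linarith
    calc ‖H345.XX w‖ * ‖riemannZeta w‖ ≤ (Real.exp K * s.im ^ 2) * (18 * s.im) := by
          apply mul_le_mul (h2.trans (by gcongr)) h7 (norm_nonneg _) (by positivity)
      _ = 18 * Real.exp K * s.im ^ 3 := by ring
      _ ≤ (30 + 18 * Real.exp K) * s.im ^ 3 := by
        have : 0 ≤ s.im ^ 3 := by positivity
        nlinarith

end Pool.Agent.H296R2.LE
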