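import Mathlib
import Pool.Agent.H296R2.LE.Zeta
import Pool.Agent.H296R2.LE.Up2

open Complex Filter Topology Set Metric ComplexConjugate Polynomial

namespace Pool.Agent.H296R2.LE

/-- `Q(d/ds) ζ` -/
noncomputable def Zp (Q : ℂ[X]) (s : ℂ) : ℂ :=
  ∑ j ∈ Finset.range (Q.natDegree + 1), Q.coeff j * iteratedDeriv j riemannZeta s

theorem Zp_eq {Q : ℂ[X]} {n : ℕ} (hn : Q.natDegree < n) (s : ℂ) :
    Zp Q s = ∑ j ∈ Finset.range n, Q.coeff j * iteratedDeriv j riemannZeta s := by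
  unfold Zp
  apply Finset.sum_subset
  · intro j hj
    rw [Finset.mem_range] at *
    omega
  · intro j _ hj
    rw [Finset.mem_range, not_lt] at hj
    rw [Polynomial.coeff_eq_zero_of_natDegree_lt (by omega), zero_mul]

theorem Zp_C (c : ℂ) (s : ℂ) : Zp (C c) s = c * riemannZeta s := by
  simp [Zp]

theorem iter_diff (j : ℕ) : DifferentiableOn ℂ (iteratedDeriv j riemannZeta) {1}ᶜ := by
  induction j with
  | zero =>
    intro s hs
    rw [iteratedDeriv_zero]
    exact (differentiableAt_riemannZeta hs).differentiableWithinAt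
  | succ j ih =>
    rw [iteratedDeriv_succ]
    exact ih.deriv isOpen_compl_singleton

theorem iter_diffAt (j : ℕ) {s : ℂ} (hs : s ≠ 1) : DifferentiableAt ℂ (iteratedDeriv j riemannZeta) s :=
  (iter_diff j s hs).differentiableAt (isOpen_compl_singleton.mem_nhds hs)

theorem Zp_hasDeriv (Q : ℂ[X]) {s : ℂ} (hs : s ≠ 1) : HasDerivAt (Zp Q)
    (∑ j ∈ Finset.range (Q.natDegree + 1), Q.coeff j * iteratedDeriv (j + 1) riemannZeta s) s := by
  unfold Zp
  apply HasDerivAt.fun_sum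
  intro j _
  have := (iter_diffAt j hs).hasDerivAt.const_mul (Q.coeff j)
  rw [iteratedDeriv_succ]
  exact this

theorem Zp_mul (Q : ℂ[X]) (lam : ℂ) {s : ℂ} (hs : s ≠ 1) :
    Zp ((X - C lam) * Q) s = deriv (Zp Q) s - lam * Zp Q s := by
  rw [(Zp_hasDeriv Q hs).deriv]
  set n := Q.natDegree + 1 with hn
  have hdeg : ((X - C lam) * Q).natDegree < n + 1 := by
    have h1 := Polynomial.natDegree_mul_le (p := X - C lam) (q := Q)
    rw [Polynomial.natDegree_X_sub_C] at h1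
    omega
  rw [Zp_eq hdeg, Zp_eq (Q := Q) (n := n + 1) (by omega)]
  have h1 : ∀ j, ((X - C lam) * Q).coeff j = (X * Q).coeff j - lam * Q.coeff j := by
    intro j
    rw [sub_mul, Polynomial.coeff_sub, Polynomial.coeff_C_mul]
  have e : ∑ j ∈ Finset.range (n + 1), ((X - C lam) * Q).coeff j * iteratedDeriv j riemannZeta s =
      ∑ j ∈ Finset.range (n + 1), (X * Q).coeff j * iteratedDeriv j riemannZeta s -
      lam * ∑ j ∈ Finset.range (n + 1), Q.coeff j * iteratedDeriv j riemannZeta s := by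
    rw [Finset.mul_sum, ← Finset.sum_sub_distrib]
    apply Finset.sum_congr rfl
    intro j _
    rw [h1]
    ring
  rw [e]
  congr 1
  rw [Finset.sum_range_succ']
  simp [Polynomial.coeff_X_mul]

theorem Zp_three (Q : ℂ[X]) : ∃ C : ℝ, ∀ s : ℂ, s.re = 3 → ‖Zp Q s‖ ≤ C := by
  obtain ⟨D, hD0, hD⟩ := Pool.Agent.H388LH.zeta_sub_one
  refine ⟨∑ j ∈ Finset.range (Q.natDegree + 1), ‖Q.coeff j‖ * (j.factorial * (1 + D) / (1 / 2) ^ j), ?_⟩
  intro s hs
  unfold Zp
  refine (norm_sum_le _ _).trans (Finset.sum_le_sum fun j _ => ?_)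
  rw [norm_mul]
  apply mul_le_mul_of_nonneg_left _ (norm_nonneg _)
  have hre : ∀ z ∈ closedBall s (1 / 2), 2 ≤ z.re := by
    intro z hz
    have := (abs_le.1 (ball_re hz)).1
    linarith
  apply Complex.norm_iteratedDeriv_le_of_forall_mem_sphere_norm_le _ (by norm_num)
  · apply DifferentiableOn.diffContOnCl
    rw [closure_ball s (by norm_num)]
    intro z hz
    have h1 := hre z hz
    refine (differentiableAt_riemannZeta ?_).differentiableWithinAt
    intro h
    rw [h] at h1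
    norm_num at h1
  · intro z hz
    have h1 := hre z (sphere_subset_closedBall hz)
    have h2 := hD z h1
    have h3 := norm_sub_norm_le (riemannZeta z) 1
    rw [norm_one] at h3
    have h4 : Real.exp (-z.re / 2) ≤ 1 := Real.exp_le_one_iff.2 (by linarith)
    nlinarith

theorem Zp_growth (Q : ℂ[X]) : ∃ C : ℝ, 0 ≤ C ∧ ∀ s : ℂ, -(1 / 2) ≤ s.re → s.re ≤ 3 → 1 ≤ s.im →
    ‖Zp Q s‖ ≤ C * s.im ^ (3 : ℝ) := by
  obtain ⟨D, hD0, hD⟩ := zeta_growth2
  set C1 := ∑ j ∈ Finset.range (Q.natDegree + 1), ‖Q.coeff j‖ * (j.factorial * (8 * D) / (1 / 2) ^ j)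
    with hC1
  have hC10 : 0 ≤ C1 := Finset.sum_nonneg fun j _ => by positivity
  have h1 : ∀ s : ℂ, -(1 / 2) ≤ s.re → s.re ≤ 3 → 2 ≤ s.im → ‖Zp Q s‖ ≤ C1 * s.im ^ (3 : ℝ) := by
    intro s hs1 hs2 hs3
    unfold Zp
    rw [hC1, Finset.sum_mul]
    refine (norm_sum_le _ _).trans (Finset.sum_le_sum fun j _ => ?_)
    rw [norm_mul, mul_assoc]
    apply mul_le_mul_of_nonneg_left _ (norm_nonneg _)
    have e : (j.factorial : ℝ) * (8 * D) / (1 / 2) ^ j * s.im ^ (3 : ℝ) =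
        j.factorial * (D * (8 * s.im ^ 3)) / (1 / 2) ^ j := by
      have : s.im ^ (3 : ℝ) = s.im ^ 3 := by norm_cast
      rw [this]; ring
    rw [e]
    have hball : ∀ z ∈ closedBall s (1 / 2), -1 ≤ z.re ∧ z.re ≤ 4 ∧ 1 ≤ z.im ∧ z.im ≤ 2 * s.im := by
      intro z hz
      have d1 := abs_le.1 (ball_re hz)
      have d2 := abs_le.1 (ball_im hz)
      refine ⟨by linarith, by linarith, by linarith, by linarith⟩
    apply Complex.norm_iteratedDeriv_le_of_forall_mem_sphere_norm_le _ (by norm_num)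
    · apply DifferentiableOn.diffContOnCl
      rw [closure_ball s (by norm_num)]
      intro z hz
      exact (zeta_diff (by linarith [(hball z hz).2.2.1])).differentiableWithinAt
    · intro z hz
      obtain ⟨d1, d2, d3, d4⟩ := hball z (sphere_subset_closedBall hz)
      refine (hD z d1 d2 d3).trans ?_
      apply mul_le_mul_of_nonneg_left _ hD0
      calc z.im ^ 3 ≤ (2 * s.im) ^ 3 := by gcongr
        _ = 8 * s.im ^ 3 := by ring
  -- compact part
  have hcomp : IsCompact (Icc (-(1 / 2) : ℝ) 3 ×ℂ Icc (1 : ℝ) 2) := isCompact_Icc.reProdIm isCompact_Icc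
  have hcont : ContinuousOn (Zp Q) (Icc (-(1 / 2) : ℝ) 3 ×ℂ Icc (1 : ℝ) 2) := by
    intro s hs
    rw [Complex.mem_reProdIm] at hs
    have : s ≠ 1 := by
      intro h
      rw [h] at hs
      have := hs.2.1
      norm_num at this
    exact (Zp_hasDeriv Q this).continuousAt.continuousWithinAt
  obtain ⟨C2, hC2⟩ := hcomp.exists_bound_of_continuousOn hcont
  refine ⟨C1 + |C2|, by positivity, ?_⟩
  intro s hs1 hs2 hs3
  have h3 : 1 ≤ s.im ^ (3 : ℝ) := Real.one_le_rpow hs3 (by norm_num)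
  rcases le_or_gt 2 s.im with h | h
  · refine (h1 s hs1 hs2 h).trans ?_
    gcongr
    have := abs_nonneg C2
    linarith
  · have := hC2 s (Complex.mem_reProdIm.2 ⟨⟨hs1, hs2⟩, ⟨hs3, h.le⟩⟩)
    have h4 := le_abs_self C2
    have h5 := abs_nonneg C2
    nlinarith

theorem Rg.congr {l u : ℝ} {F G : ℂ → ℂ} (h : Rg l u F) (he : ∀ s : ℂ, 0 < s.im → F s = G s) :
    Rg l u G := by
  intro l' u' hl hu ε hε
  obtain ⟨T, hT⟩ := h l' u' hl hu ε hε
  refine ⟨max T 1, fun s hs1 hs2 hs3 => ?_⟩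
  have him : 0 < s.im := by linarith [le_max_right T 1]
  have h1 := hT s hs1 hs2 ((le_max_left _ _).trans hs3)
  have hev : F =ᶠ[𝓝 s] G := by
    filter_upwards [(isOpen_lt continuous_const Complex.continuous_im).mem_nhds him] with z hz
    exact he z hz
  rw [hev.deriv_eq, he s him] at h1
  exact h1

theorem ne_one_of_im {s : ℂ} (hs : 0 < s.im) : s ≠ 1 := by
  intro h
  rw [h] at hs
  norm_num at hs

theorem Zp_diffOn (Q : ℂ[X]) (l u : ℝ) : DifferentiableOn ℂ (Zp Q) (U l u) := fun _ hs =>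
  (Zp_hasDeriv Q (ne_one_of_im hs.2.2)).differentiableAt.differentiableWithinAt

theorem split_root {Q : ℂ[X]} (hQ : Q ≠ 0) (hd : Q.natDegree ≠ 0) : ∃ (lam : ℂ) (Q' : ℂ[X]),
    Q = (X - C lam) * Q' ∧ Q' ≠ 0 ∧ Q'.natDegree < Q.natDegree := by
  obtain ⟨lam, hlam⟩ := IsAlgClosed.exists_root Q (by
    intro h
    exact hd (Polynomial.natDegree_eq_of_degree_eq_some h))
  obtain ⟨Q', hQ'⟩ := Polynomial.dvd_iff_isRoot.2 hlam
  have hQ'0 : Q' ≠ 0 := by
    rintro rfl
    rw [mul_zero] at hQ'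
    exact hQ hQ'
  refine ⟨lam, Q', hQ', hQ'0, ?_⟩
  rw [hQ', Polynomial.natDegree_mul (Polynomial.X_sub_C_ne_zero lam) hQ'0, Polynomial.natDegree_X_sub_C]
  omega

theorem down_all {l u : ℝ} (h : Rg l u riemannZeta) : ∀ (n : ℕ) (Q : ℂ[X]), Q.natDegree ≤ n → Q ≠ 0 →
    Rg l u (Zp Q) := by
  intro n
  induction n with
  | zero =>
    intro Q hn hQ
    have hd : Q.natDegree = 0 := by omega
    rw [Polynomial.eq_C_of_natDegree_eq_zero hd] at hQ ⊢
    have hc : Q.coeff 0 ≠ 0 := by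
      intro h0
      rw [h0, Polynomial.C_0] at hQ
      exact hQ rfl
    exact (h.smul hc).congr fun s _ => (Zp_C _ s).symm
  | succ n ih =>
    intro Q hn hQ
    by_cases hd : Q.natDegree = 0
    · exact ih Q (by omega) hQ
    · obtain ⟨lam, Q', hQ', hQ'0, hlt⟩ := split_root hQ hd
      have h1 := ih Q' (by omega) hQ'0
      have h2 := h1.down lam (Zp_diffOn Q' l u)
      rw [hQ']
      exact h2.congr fun s hs => (Zp_mul Q' lam (ne_one_of_im hs)).symm

theorem up_all {a : ℝ} (ha0 : 0 < a) (ha : a ≤ 1 / 2) : ∀ (n : ℕ) (Q : ℂ[X]), Q.natDegree ≤ n → Q ≠ 0 →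
    Rg (-a) a (Zp Q) → Rg (-a) a riemannZeta := by
  intro n
  induction n with
  | zero =>
    intro Q hn hQ h
    have hd : Q.natDegree = 0 := by omega
    rw [Polynomial.eq_C_of_natDegree_eq_zero hd] at hQ h
    have hc : Q.coeff 0 ≠ 0 := by
      intro h0
      rw [h0, Polynomial.C_0] at hQ
      exact hQ rfl
    have h1 : Rg (-a) a (fun s => (Q.coeff 0)⁻¹ * Zp (C (Q.coeff 0)) s) := h.smul (inv_ne_zero hc)
    exact h1.congr fun s _ => by rw [Zp_C]; field_simp
  | succ n ih =>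
    intro Q hn hQ h
    by_cases hd : Q.natDegree = 0
    · exact ih Q (by omega) hQ h
    · obtain ⟨lam, Q', hQ', hQ'0, hlt⟩ := split_root hQ hd
      apply ih Q' (by omega) hQ'0
      obtain ⟨C1, _, hC1⟩ := Zp_growth Q
      obtain ⟨C2, hC2⟩ := Zp_three Q
      obtain ⟨C3, hC3⟩ := Zp_three Q'
      apply Rg.up ha0 ha lam (F := Zp Q) (G := Zp Q')
        (fun s hs => (Zp_hasDeriv Q (ne_one_of_im hs)).differentiableAt)
        (fun s hs => (Zp_hasDeriv Q' (ne_one_of_im hs)).differentiableAt)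
        (fun s hs => by rw [hQ']; exact Zp_mul Q' lam (ne_one_of_im hs))
        ⟨3, C1, fun s hs1 hs2 hs3 => hC1 s (by linarith) hs2 hs3⟩
        ⟨C2, fun s hs _ => hC2 s hs⟩ ⟨C3, fun s hs _ => hC3 s hs⟩ h

end Pool.Agent.H296R2.LE
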