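import Mathlib
import Pool.Agent.H296R2.LE.Poly

open Complex Filter Topology Set Metric ComplexConjugate Polynomial

namespace Pool.Agent.H296R2.LE

theorem Rg.mono {l u l2 u2 : ℝ} {F : ℂ → ℂ} (h : Rg l u F) (hl : l ≤ l2) (hu : u2 ≤ u) :
    Rg l2 u2 F := fun l' u' h1 h2 ε hε => h l' u' (by linarith) (by linarith) ε hε

theorem finite_zeros {S : Set ℂ} (hS : IsOpen S) (hSc : IsPreconnected S) {F : ℂ → ℂ}
    (hF : DifferentiableOn ℂ F S) {z0 : ℂ} (hz0 : z0 ∈ S) (hne : F z0 ≠ 0) {K : Set ℂ}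
    (hK : IsCompact K) (hKS : K ⊆ S) : {z ∈ K | F z = 0}.Finite := by
  by_contra hinf
  have hinf' : {z ∈ K | F z = 0}.Infinite := hinf
  obtain ⟨z, hzK, hz⟩ := hinf'.exists_accPt_of_subset_isCompact hK (fun z hz => hz.1)
  have hfr : ∃ᶠ w in 𝓝[≠] z, F w = 0 := by
    have h1 := accPt_iff_frequently_nhdsNE.1 hz
    exact h1.mono fun w hw => hw.2
  have han : AnalyticOnNhd ℂ F S := hF.analyticOnNhd hS
  have := han.eqOn_zero_of_preconnected_of_frequently_eq_zero hSc (hKS hzK) hfr
  exact hne (this hz0)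

theorem im_bdd_of_finite {A : Set ℂ} (hA : A.Finite) : ∃ T : ℝ, ∀ s ∈ A, s.im < T := by
  obtain ⟨T, hT⟩ := (hA.image Complex.im).bddAbove
  refine ⟨T + 1, fun s hs => ?_⟩
  have := hT (mem_image_of_mem _ hs)
  linarith

/-- step (A) -/
theorem zeta_rg_of_finite {a : ℝ} (ha0 : 0 < a) (ha : a ≤ 1 / 2)
    (h : ∀ b : ℝ, b < a → {s : ℂ | 1 - b < s.re ∧ riemannZeta s = 0}.Finite) :
    Rg (-a) a riemannZeta := by
  obtain ⟨D, hD0, hD⟩ := zeta_growth2
  apply Rg.extend ha0 ha
  · intro s hs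
    exact (zeta_diff hs.2.2).differentiableWithinAt
  · intro b hb
    refine ⟨3, D, fun s hs1 hs2 hs3 => ?_⟩
    have e : s.im ^ (3 : ℝ) = s.im ^ 3 := by norm_cast
    rw [e]
    exact hD s (by linarith) (by linarith) hs3
  · exact rg_zeta.mono (by linarith) le_rfl
  · intro b hb
    have h1 := h b hb
    have h2 : {s : ℂ | -b < s.re ∧ s.re < b ∧ 0 < s.im ∧ riemannZeta s = 0}.Finite := by
      apply (h1.image (fun s => 1 - s)).subset
      rintro s ⟨h3, h4, h5, h6⟩
      refine ⟨1 - s, ⟨by simpa using h4, ?_⟩, by simp⟩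
      have h7 := zeta_fe' (s := s) (by linarith) h5.ne'
      rw [h6] at h7
      have h8 : H345.XX (1 - conj s) * riemannZeta (1 - conj s) = 0 := by
        have := h7.symm
        rwa [map_eq_zero] at this
      have hX : H345.XX (1 - conj s) * riemannZeta (1 - conj s) = 0 := h8
      -- use the functional equation the other way
      have h9 : riemannZeta s = H345.XX (1 - s) * riemannZeta (1 - s) := by
        have := H345.zeta_fe (1 - s) (by
          intro n hn
          have := congrArg Complex.im hn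
          simp at this
          exact h5.ne' this) (by
          intro hn
          have := congrArg Complex.im hn
          simp at this
          exact h5.ne' this)
        rwa [sub_sub_cancel] at this
      have h10 := H345.zeta_fe s (by
          intro n hn
          have := congrArg Complex.im hn
          simp at this
          exact h5.ne' this) (by
          intro hn
          have := congrArg Complex.im hn
          simp at this
          exact h5.ne' this)
      rw [h10, h6, mul_zero]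
    obtain ⟨T, hT⟩ := im_bdd_of_finite h2
    refine ⟨max T 1, fun s hs1 hs2 hs3 h0 => ?_⟩
    have him : 0 < s.im := by linarith [le_max_right T 1]
    have := hT s ⟨hs1, hs2, him, h0⟩
    linarith [le_max_left T 1]

/-- step (C) -/
theorem finite_of_zeta_rg {a : ℝ} (ha0 : 0 < a) (ha : a ≤ 1 / 2) (h : Rg (-a) a riemannZeta) :
    ∀ b : ℝ, b < a → {s : ℂ | 1 - b < s.re ∧ riemannZeta s = 0}.Finite := by
  intro b hb
  obtain ⟨T, hT⟩ := h 0 b (by linarith) hb 1 one_pos
  set T' := max T 1 with hT'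
  have hfin : {z ∈ (Icc (0 : ℝ) b ×ℂ Icc (-T') T') | riemannZeta z = 0}.Finite := by
    refine finite_zeros (S := {z : ℂ | z.re < 1}) (isOpen_lt Complex.continuous_re continuous_const)
      (convex_halfSpace_re_lt 1).isPreconnected (z0 := 0) ?_ ?_ ?_ ?_ ?_
    · intro z hz
      refine (differentiableAt_riemannZeta ?_).differentiableWithinAt
      intro h1
      rw [h1] at hz
      simp at hz
    · simp
    · rw [riemannZeta_zero]; norm_num
    · exact isCompact_Icc.reProdIm isCompact_Icc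
    · intro z hz
      rw [Complex.mem_reProdIm] at hz
      have := hz.1.2
      show z.re < 1
      linarith
  have hsub : {s : ℂ | 1 - b < s.re ∧ riemannZeta s = 0} ⊆
      (fun s : ℂ => 1 - s) '' {z ∈ (Icc (0 : ℝ) b ×ℂ Icc (-T') T') | riemannZeta z = 0} := by
    rintro s ⟨h1, h2⟩
    have hre : s.re < 1 := by
      by_contra hge
      exact riemannZeta_ne_zero_of_one_le_re (not_lt.1 hge) h2
    have hfe : riemannZeta (1 - s) = 0 := by
      have := H345.zeta_fe s (by
        intro n hn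
        have := congrArg Complex.re hn
        simp only [neg_re, natCast_re] at this
        have h : (0 : ℝ) ≤ n := Nat.cast_nonneg n
        linarith) (by
        intro hn
        rw [hn] at hre
        simp at hre)
      rw [this, h2, mul_zero]
    refine ⟨1 - s, ⟨?_, hfe⟩, by simp⟩
    rw [Complex.mem_reProdIm]
    have e1 : (1 - s).re = 1 - s.re := by simp
    have e2 : (1 - s).im = -s.im := by simp
    refine ⟨⟨by rw [e1]; linarith, by rw [e1]; linarith⟩, ?_⟩
    rw [e2]
    have hTT : T ≤ T' := le_max_left _ _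
    constructor
    · by_contra hlt
      rw [not_le] at hlt
      -- s.im > T'
      have h3 := hT (conj (1 - s)) (by simp; linarith) (by simp; linarith) (by simp; linarith)
      apply h3.1
      rw [riemannZeta_conj, hfe, map_zero]
    · by_contra hlt
      rw [not_le] at hlt
      have h3 := hT (1 - s) (by rw [e1]; linarith) (by rw [e1]; linarith) (by rw [e2]; linarith)
      exact h3.1 hfe
  exact (hfin.image _).subset hsub

theorem isOpen_strip (a : ℝ) : IsOpen {s : ℂ | |s.re| < a} :=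
  isOpen_lt (continuous_abs.comp Complex.continuous_re) continuous_const

theorem strip_preconnected (a : ℝ) : IsPreconnected {s : ℂ | |s.re| < a} := by
  have : {s : ℂ | |s.re| < a} = {s : ℂ | -a < s.re} ∩ {s : ℂ | s.re < a} := by
    ext s
    simp [abs_lt]
  rw [this]
  exact ((convex_halfSpace_re_gt (-a)).inter (convex_halfSpace_re_lt a)).isPreconnected

/-- step (B) -/
theorem finite_of_rg {a : ℝ} (ha0 : 0 < a) {F : ℂ → ℂ}
    (hF : DifferentiableOn ℂ F {s : ℂ | |s.re| < a}) (h : Rg (-a) a F) :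
    ∀ b : ℝ, b < a → {s : ℂ | |s.re| < b ∧ 0 < s.im ∧ F s = 0}.Finite := by
  intro b hb
  obtain ⟨T, hT⟩ := h (-(max b 0)) (max b 0) (by
    have : max b 0 < a := max_lt hb ha0
    linarith) (max_lt hb ha0) 1 one_pos
  set T' := max T 1 with hT'
  set z0 : ℂ := (T' : ℂ) * I with hz0
  have hz0re : z0.re = 0 := by simp [hz0]
  have hz0im : z0.im = T' := by simp [hz0]
  have h0 := (hT z0 (by rw [hz0re]; simp) (by rw [hz0re]; simp) (by rw [hz0im]; exact le_max_left _ _)).1
  have hfin : {z ∈ (Icc (-b) b ×ℂ Icc (0 : ℝ) T') | F z = 0}.Finite := by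
    apply finite_zeros (isOpen_strip a) (strip_preconnected a) hF (z0 := z0)
    · show |z0.re| < a
      rw [hz0re]; simpa using ha0
    · exact h0
    · exact isCompact_Icc.reProdIm isCompact_Icc
    · intro z hz
      rw [Complex.mem_reProdIm] at hz
      show |z.re| < a
      exact lt_of_le_of_lt (abs_le.2 hz.1) hb
  apply hfin.subset
  rintro s ⟨h1, h2, h3⟩
  refine ⟨?_, h3⟩
  rw [Complex.mem_reProdIm]
  have h4 := abs_lt.1 h1
  refine ⟨⟨h4.1.le, h4.2.le⟩, h2.le, ?_⟩
  by_contra hlt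
  rw [not_le] at hlt
  have h5 : b ≤ max b 0 := le_max_left _ _
  exact (hT s (by linarith) (by linarith) (by
    have : T ≤ T' := le_max_left _ _
    linarith)).1 h3

variable {a : ℝ} {g : ℂ → ℂ}

/-- the growth hypothesis -/
def GrowthCond (a : ℝ) (g : ℂ → ℂ) : Prop :=
  ∀ b : ℝ, b < a → ∃ κ : ℝ, κ < 1 / 2 - b ∧ ∃ C : ℝ, ∀ s : ℂ, |s.re| ≤ b → 1 ≤ s.im →
    ‖g s‖ ≤ C * s.im ^ κ

theorem growth_conv (ha0 : 0 < a) (ha : a ≤ 1 / 2) (hg2 : GrowthCond a g) {u : ℝ} (hu : u ≤ a) :
    ∀ l' u' : ℝ, -a < l' → u' < u → ∃ κ : ℝ, 0 ≤ κ ∧ κ < 1 / 2 - u' ∧ ∃ C : ℝ, 0 ≤ C ∧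
      ∀ s : ℂ, l' ≤ s.re → s.re ≤ u' → 1 ≤ s.im → ‖g s‖ ≤ C * s.im ^ κ := by
  intro l' u' hl hu'
  set b := max (max (-l') u') 0 with hb
  have hb1 : -l' ≤ b := (le_max_left _ _).trans (le_max_left _ _)
  have hb2 : u' ≤ b := (le_max_right _ _).trans (le_max_left _ _)
  have hba : b < a := max_lt (max_lt (by linarith) (by linarith)) ha0
  obtain ⟨κ, hκ, C, hC⟩ := hg2 b hba
  refine ⟨max κ 0, le_max_right _ _, ?_, |C|, abs_nonneg _, ?_⟩
  · have : max κ 0 < 1 / 2 - b := max_lt hκ (by linarith)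
    linarith
  · intro s hs1 hs2 hs3
    have h1 := hC s (abs_le.2 ⟨by linarith, by linarith⟩) hs3
    have him : 0 < s.im := by linarith
    have h2 : s.im ^ κ ≤ s.im ^ (max κ 0) :=
      Real.rpow_le_rpow_of_exponent_le hs3 (le_max_left _ _)
    calc ‖g s‖ ≤ C * s.im ^ κ := h1
      _ ≤ |C| * s.im ^ κ := mul_le_mul_of_nonneg_right (le_abs_self _) (by positivity)
      _ ≤ |C| * s.im ^ (max κ 0) := by gcongr

theorem U_sub_strip {u : ℝ} (hu : u ≤ a) : U (-a) u ⊆ {s : ℂ | |s.re| < a} := by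
  rintro s ⟨h1, h2, _⟩
  exact abs_lt.2 ⟨h1, by linarith⟩

theorem Zp_diff_strip (ha : a ≤ 1 / 2) (P : ℂ[X]) : DifferentiableOn ℂ (Zp P) {s : ℂ | |s.re| < a} := by
  intro s hs
  have hs1 : s ≠ 1 := by
    intro h
    rw [h] at hs
    have : |(1 : ℂ).re| < a := hs
    simp at this
    linarith
  exact (Zp_hasDeriv P hs1).differentiableAt.differentiableWithinAt

theorem main_iff (P : ℂ[X]) (hP : P ≠ 0) (ha0 : 0 < a) (ha : a ≤ 1 / 2)
    (hg : DifferentiableOn ℂ g {s : ℂ | |s.re| < a}) (hg2 : GrowthCond a g) :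
    (∀ b : ℝ, b < a → {s : ℂ | 1 - b < s.re ∧ riemannZeta s = 0}.Finite) ↔
      ∀ b : ℝ, b < a → {s : ℂ | |s.re| < b ∧ 0 < s.im ∧ Zp P s = g s}.Finite := by
  have hFd : DifferentiableOn ℂ (fun s => Zp P s - g s) {s : ℂ | |s.re| < a} :=
    (Zp_diff_strip ha P).sub hg
  constructor
  · intro h
    have h1 := zeta_rg_of_finite ha0 ha h
    have h2 := down_all h1 P.natDegree P le_rfl hP
    have h3 := h2.sub (Zp_diffOn P _ _) (hg.mono (U_sub_strip le_rfl))
      (growth_conv ha0 ha hg2 le_rfl)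
    have h4 := finite_of_rg ha0 hFd h3
    intro b hb
    apply (h4 b hb).subset
    rintro s ⟨h5, h6, h7⟩
    exact ⟨h5, h6, sub_eq_zero.2 h7⟩
  · intro h
    have hz0 : Rg (-a) 0 riemannZeta := rg_zeta.mono (by linarith) le_rfl
    have h2 := down_all hz0 P.natDegree P le_rfl hP
    have h3 := h2.sub (Zp_diffOn P _ _) (hg.mono (U_sub_strip ha0.le))
      (growth_conv ha0 ha hg2 ha0.le)
    have h4 : Rg (-a) a (fun s => Zp P s - g s) := by
      apply Rg.extend ha0 ha (hFd.mono (U_sub_strip le_rfl)) _ h3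
      · intro b hb
        obtain ⟨T, hT⟩ := im_bdd_of_finite (h b hb)
        refine ⟨max T 1, fun s hs1 hs2 hs3 h0 => ?_⟩
        have him : 0 < s.im := by linarith [le_max_right T 1]
        have := hT s ⟨abs_lt.2 ⟨hs1, hs2⟩, him, sub_eq_zero.1 h0⟩
        linarith [le_max_left T 1]
      · intro b hb
        obtain ⟨D, hD0, hD⟩ := Zp_growth P
        obtain ⟨κ, hκ, C, hC⟩ := hg2 (max b 0) (max_lt hb ha0)
        refine ⟨3, D + |C|, fun s hs1 hs2 hs3 => ?_⟩
        have him : 0 < s.im := by linarith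
        have h5 := hD s (by linarith) (by linarith) hs3
        have h6 := hC s (by
          have : b ≤ max b 0 := le_max_left _ _
          exact abs_le.2 ⟨by linarith, by linarith⟩) hs3
        have hκ3 : κ ≤ 3 := by
          have : 0 ≤ max b 0 := le_max_right _ _
          linarith
        have h7 : s.im ^ κ ≤ s.im ^ (3 : ℝ) := Real.rpow_le_rpow_of_exponent_le hs3 hκ3
        have h8 : C * s.im ^ κ ≤ |C| * s.im ^ (3 : ℝ) := by
          calc C * s.im ^ κ ≤ |C| * s.im ^ κ := mul_le_mul_of_nonneg_right (le_abs_self _) (by positivity)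
            _ ≤ |C| * s.im ^ (3 : ℝ) := by gcongr
        have h9 := norm_sub_le (Zp P s) (g s)
        calc ‖Zp P s - g s‖ ≤ D * s.im ^ (3 : ℝ) + |C| * s.im ^ (3 : ℝ) := by linarith
          _ = (D + |C|) * s.im ^ (3 : ℝ) := by ring
    have hg2' : GrowthCond a (fun s => -g s) := by
      intro b hb
      obtain ⟨κ, hκ, C, hC⟩ := hg2 b hb
      exact ⟨κ, hκ, C, fun s hs1 hs2 => by rw [norm_neg]; exact hC s hs1 hs2⟩
    have h5 := h4.sub (hFd.mono (U_sub_strip le_rfl)) ((hg.mono (U_sub_strip le_rfl)).neg)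
      (growth_conv ha0 ha hg2' le_rfl)
    have h6 : Rg (-a) a (Zp P) := h5.congr fun s _ => by simp
    exact finite_of_zeta_rg ha0 ha (up_all ha0 ha P.natDegree P le_rfl hP h6)

theorem main_q1 (P : ℂ[X]) (hP : P ≠ 0) (ha0 : 0 < a) (ha : a ≤ 1 / 2)
    (hg : DifferentiableOn ℂ g {s : ℂ | |s.re| < a}) (hg2 : GrowthCond a g) :
    (∃ σ₀ : ℝ, 1 / 2 < σ₀ ∧ σ₀ < 1 ∧ ∀ s : ℂ, σ₀ ≤ s.re → riemannZeta s ≠ 0) ↔
      ∃ b : ℝ, 0 < b ∧ b ≤ a ∧ {s : ℂ | |s.re| < b ∧ 0 < s.im ∧ Zp P s = g s}.Finite := by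
  have hmono : ∀ c : ℝ, c ≤ a → DifferentiableOn ℂ g {s : ℂ | |s.re| < c} ∧ GrowthCond c g := by
    intro c hc
    refine ⟨hg.mono fun s hs => ?_, fun b hb => hg2 b (by linarith)⟩
    have : |s.re| < c := hs
    show |s.re| < a
    linarith
  constructor
  · rintro ⟨σ₀, h1, h2, h3⟩
    set c := min a (1 - σ₀) with hc
    have hc0 : 0 < c := lt_min ha0 (by linarith)
    have hca : c ≤ a := min_le_left _ _
    have hcs : c ≤ 1 - σ₀ := min_le_right _ _
    obtain ⟨m1, m2⟩ := hmono c hca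
    have h4 := (main_iff P hP hc0 (by linarith) m1 m2).1 (by
      intro b hb
      convert Set.finite_empty (α := ℂ) using 1
      ext s
      simp only [mem_ofPred_eq, mem_empty_iff_false, iff_false, not_and]
      intro h5
      exact h3 s (by linarith))
    exact ⟨c / 2, by linarith, by linarith, h4 (c / 2) (by linarith)⟩
  · rintro ⟨b, hb0, hba, hfin⟩
    obtain ⟨m1, m2⟩ := hmono b hba
    have h4 := (main_iff P hP hb0 (by linarith) m1 m2).2 (by
      intro b' hb'
      apply hfin.subset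
      rintro s ⟨h5, h6, h7⟩
      exact ⟨by linarith, h6, h7⟩)
    have h5 := h4 (b / 2) (by linarith)
    obtain ⟨M, hM1, hM⟩ : ∃ M : ℝ, M < 1 ∧ ∀ s ∈ {s : ℂ | 1 - b / 2 < s.re ∧ riemannZeta s = 0}, s.re ≤ M := by
      by_cases hne : {s : ℂ | 1 - b / 2 < s.re ∧ riemannZeta s = 0}.Nonempty
      · obtain ⟨s0, hs0, hs1⟩ := Set.exists_max_image _ Complex.re h5 hne
        refine ⟨s0.re, ?_, hs1⟩
        by_contra hge
        exact riemannZeta_ne_zero_of_one_le_re (not_lt.1 hge) hs0.2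
      · rw [Set.not_nonempty_iff_eq_empty] at hne
        exact ⟨0, one_pos, fun s hs => by rw [hne] at hs; exact absurd hs (Set.notMem_empty s)⟩
    refine ⟨max ((1 + M) / 2) (1 - b / 4), ?_, max_lt (by linarith) (by linarith), ?_⟩
    · exact lt_of_lt_of_le (by linarith) (le_max_right _ _)
    · intro s hs h0
      have h6 : (1 + M) / 2 ≤ s.re := (le_max_left _ _).trans hs
      have h7 : 1 - b / 4 ≤ s.re := (le_max_right _ _).trans hs
      have h8 := hM s ⟨by linarith, h0⟩
      linarith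

end Pool.Agent.H296R2.LE
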